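import Pool.Agent.X13.Rob.Basic

namespace Pool.Agent.X13.Rob

variable {n : ℕ} {c : Config n} (r : Run c)

namespace Run

theorem no_common (k : ℕ) {i j : Fin n} (hi : i ∈ r.A k) (hj : j ∈ r.A k) (hij : i ≠ j)
    (hs : Same (r.x (k+1) i) (r.x (k+1) j)) : r.v k i ≠ r.v k j := by
  intro he
  apply r.opp hi hj hij _ he
  obtain ⟨m, hm⟩ := hs
  have h1 := r.move k i hi
  have h2 := r.move k j hj
  rw [he] at h1
  exact ⟨m, by linarith⟩

/-- no three living robots ever meet at one point -/
theorem no_triple (k : ℕ) {i j l : Fin n} (hi : i ∈ r.A k) (hj : j ∈ r.A k) (hl : l ∈ r.A k)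
    (hij : i ≠ j) (hjl : j ≠ l) (hil : i ≠ l) (h1 : Same (r.x (k+1) i) (r.x (k+1) j)) :
    ¬ Same (r.x (k+1) j) (r.x (k+1) l) := by
  intro h2
  have a := r.no_common k hi hj hij h1
  have b := r.no_common k hj hl hjl h2
  have d := r.no_common k hi hl hil (h1.trans h2)
  rcases r.vel k i hi with x | x <;> rcases r.vel k j hj with y | y <;>
    rcases r.vel k l hl with z | z <;> rw [x, y] at a <;> rw [y, z] at b <;> rw [x, z] at d <;>
    first
      | exact a rfl
      | exact b rfl
      | exact d rfl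

end Run
end Pool.Agent.X13.Rob
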