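import Pool.Agent.X13.Rob.Model

namespace Pool.Agent.X13.Rob

variable {n : ℕ} {c : Config n} (r : Run c)

theorem Config.ne_of_ne {n : ℕ} (c : Config n) {i j : Fin n} (hij : i ≠ j) (m : ℤ) :
    c.h i + m ≠ c.h j := by
  intro h
  exact c.distinct j i (Ne.symm hij) ⟨m, h.symm⟩

namespace Run

theorem mem_of_mem_succ {k : ℕ} {i : Fin n} (hi : i ∈ r.A (k+1)) : i ∈ r.A k :=
  ((r.death k i).1 hi).1

theorem mem_of_le {k l : ℕ} (hkl : k ≤ l) {i : Fin n} (hi : i ∈ r.A l) : i ∈ r.A k := by
  induction l, hkl using Nat.le_induction with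
  | base => exact hi
  | succ l _ ih => exact ih (r.mem_of_mem_succ hi)

theorem t_strictMono : StrictMono r.t := strictMono_nat_of_lt_succ r.tlt

theorem t_nonneg (k : ℕ) : 0 ≤ r.t k := by
  rw [← r.t0]; exact r.t_strictMono.monotone (Nat.zero_le k)

/-- velocities are `±1` -/
theorem vel (k : ℕ) : ∀ i ∈ r.A k, r.v k i = 1 ∨ r.v k i = -1 := by
  induction k with
  | zero => intro i _; rw [r.v0]; exact c.unit i
  | succ k ih =>
    intro i hi
    by_cases hf : ∀ j ∈ r.A (k+1), j ≠ i → ¬ Same (r.x (k+1) i) (r.x (k+1) j)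
    · rw [r.free k i hi hf]; exact ih i (r.mem_of_mem_succ hi)
    · push Not at hf
      obtain ⟨j, hj, hji, hs⟩ := hf
      rw [r.coll k i hi j hj (Ne.symm hji) hs]; exact ih j (r.mem_of_mem_succ hj)

/-- order is preserved -/
theorem ord (k : ℕ) : ∀ i ∈ r.A k, ∀ j ∈ r.A k, ∀ m : ℤ, c.h i + m < c.h j →
    r.x k i + m < r.x k j ∨ (r.x k i + m = r.x k j ∧ r.v k i = -1 ∧ r.v k j = 1) := by
  induction k with
  | zero =>
    intro i _ j _ m hm
    left; rw [r.x0, r.x0]; exact hm
  | succ k ih =>
    intro i hi j hj m hm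
    by_cases hij : i = j
    · subst hij; left; linarith
    have hi' := r.mem_of_mem_succ hi
    have hj' := r.mem_of_mem_succ hj
    have hΔ := r.tlt k
    have h1 := r.move k i hi'
    have h2 := r.move k j hj'
    have key := ih i hi' j hj' m hm
    rcases r.vel k i hi' with vi | vi <;> rcases r.vel k j hj' with vj | vj <;>
      rw [vi] at h1 <;> rw [vj] at h2
    · rcases key with h | ⟨_, h, _⟩
      · left; linarith
      · rw [vi] at h; norm_num at h
    · -- approach
      rcases key with h | ⟨_, h, _⟩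
      swap
      · rw [vi] at h; norm_num at h
      set g := r.x k j - (r.x k i + m) with hg
      have hgpos : 0 < g := by linarith
      have hle : r.t (k+1) - r.t k ≤ g / 2 := by
        by_contra hlt
        push Not at hlt
        refine r.noMeet k (r.t k + g/2) (by linarith) (by linarith) i hi' j hj' hij ⟨-m, ?_⟩
        rw [vi, vj]; push_cast; linarith
      rcases hle.lt_or_eq with hlt | heq
      · left; linarith
      · right
        have hs : r.x (k+1) i + m = r.x (k+1) j := by linarith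
        have hS : Same (r.x (k+1) i) (r.x (k+1) j) := ⟨-m, by push_cast; linarith⟩
        refine ⟨hs, ?_, ?_⟩
        · rw [r.coll k i hi j hj hij hS, vj]
        · rw [r.coll k j hj i hi (Ne.symm hij) hS.symm, vi]
    · left
      rcases key with h | ⟨h, _, _⟩ <;> linarith
    · rcases key with h | ⟨_, _, h⟩
      · left; linarith
      · rw [vj] at h; norm_num at h

/-- two different alive robots at the same point just after the event have opposite velocities -/
theorem opp {k : ℕ} {i j : Fin n} (hi : i ∈ r.A k) (hj : j ∈ r.A k) (hij : i ≠ j)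
    (hs : Same (r.x k i) (r.x k j)) : r.v k i ≠ r.v k j := by
  obtain ⟨m, hm⟩ := hs
  rcases lt_or_gt_of_ne (c.ne_of_ne hij (-m)) with h | h
  · rcases r.ord k i hi j hj (-m) h with h' | ⟨_, a, b⟩
    · push_cast at h'; linarith
    · rw [a, b]; norm_num
  · have h2 : c.h j + m < c.h i := by push_cast at h; linarith
    rcases r.ord k j hj i hi m h2 with h' | ⟨_, a, b⟩
    · linarith
    · rw [a, b]; norm_num

/-- predecessor of a carrier -/
theorem pred (k : ℕ) {i : Fin n} (hi : i ∈ r.A (k+1)) :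
    ∃ j ∈ r.A (k+1), r.v k j = r.v (k+1) i ∧ Same (r.x (k+1) j) (r.x (k+1) i) := by
  by_cases hf : ∀ j ∈ r.A (k+1), j ≠ i → ¬ Same (r.x (k+1) i) (r.x (k+1) j)
  · exact ⟨i, hi, (r.free k i hi hf).symm, Same.refl _⟩
  · push Not at hf
    obtain ⟨j, hj, hji, hs⟩ := hf
    exact ⟨j, hj, (r.coll k i hi j hj (Ne.symm hji) hs).symm, hs.symm⟩

theorem linear_side {y w Δ : ℝ} (hy : 0 < y) (hy1 : y < 1) (hw : w = 1 ∨ w = -1) (hΔ : 0 < Δ)
    (hno : ∀ s, 0 < s → s ≤ Δ → ¬ ∃ m : ℤ, y + w * s = m) : 0 < y + w * Δ ∧ y + w * Δ < 1 := by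
  rcases hw with rfl | rfl
  · refine ⟨by linarith, ?_⟩
    by_contra h
    push Not at h
    exact hno (1 - y) (by linarith) (by linarith) ⟨1, by push_cast; ring⟩
  · refine ⟨?_, by linarith⟩
    by_contra h
    push Not at h
    exact hno y hy (by linarith) ⟨0, by push_cast; ring⟩

/-- no alive robot is at home at times in `(t k, t (k+1)]` -/
theorem no_home {k : ℕ} {i : Fin n} (hi : i ∈ r.A (k+1)) {s : ℝ} (hs : 0 < s)
    (hs' : s ≤ r.t (k+1) - r.t k) : ¬ Same (r.x k i + r.v k i * s) (c.h i) := by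
  have hi' := r.mem_of_mem_succ hi
  rcases hs'.lt_or_eq with h | h
  · have := r.noHome k (r.t k + s) (by linarith) (by linarith) i hi'
    simpa using this
  · have h2 := ((r.death k i).1 hi).2
    rw [r.move k i hi', ← h] at h2
    exact h2

/-- Every robot stays strictly within distance one of its home, on the side it started to. -/
theorem side (k : ℕ) : ∀ i ∈ r.A (k+1),
    0 < c.d i * (r.x (k+1) i - c.h i) ∧ c.d i * (r.x (k+1) i - c.h i) < 1 := by
  induction k with
  | zero =>
    intro i hi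
    have hi' := r.mem_of_mem_succ hi
    have hm := r.move 0 i hi'
    rw [r.x0, r.v0, r.t0] at hm
    have hsq : c.d i * c.d i = 1 := by rcases c.unit i with h | h <;> rw [h] <;> norm_num
    have e : c.d i * (r.x (0+1) i - c.h i) = r.t (0+1) := by
      rw [hm]; linear_combination (r.t (0+1) - 0) * hsq
    have ht : 0 < r.t (0+1) := by have := r.tlt 0; rw [r.t0] at this; exact this
    rw [e]
    refine ⟨ht, ?_⟩
    by_contra hge
    push Not at hge
    have := r.no_home hi (s := 1) one_pos (by rw [r.t0]; linarith)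
    apply this
    rw [r.x0, r.v0]
    rcases c.unit i with h | h
    · exact ⟨1, by rw [h]; push_cast; ring⟩
    · exact ⟨-1, by rw [h]; push_cast; ring⟩
  | succ k ih =>
    intro i hi
    have hi' := r.mem_of_mem_succ hi
    have h0 := ih i hi'
    have hm := r.move (k+1) i hi'
    have hv := r.vel (k+1) i hi'
    have hw : c.d i * r.v (k+1) i = 1 ∨ c.d i * r.v (k+1) i = -1 := by
      rcases c.unit i with h | h <;> rcases hv with h' | h' <;> rw [h, h'] <;> norm_num
    have hsq : c.d i * c.d i = 1 := by rcases c.unit i with h | h <;> rw [h] <;> norm_num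
    have := linear_side h0.1 h0.2 hw (Δ := r.t (k+1+1) - r.t (k+1)) (by linarith [r.tlt (k+1)]) (by
      intro s hs hs' ⟨m, hmm⟩
      apply r.no_home hi hs hs'
      rcases c.unit i with h | h
      · exact ⟨m, by rw [h] at hmm; linarith⟩
      · exact ⟨-m, by rw [h] at hmm; push_cast; linarith⟩)
    have e : c.d i * (r.x (k+1+1) i - c.h i)
        = c.d i * (r.x (k+1) i - c.h i) + c.d i * r.v (k+1) i * (r.t (k+1+1) - r.t (k+1)) := by
      rw [hm]; ring
    rw [e]; exact this

theorem sideR {k : ℕ} (hk : 1 ≤ k) {i : Fin n} (hi : i ∈ r.A k) (hd : c.d i = 1) :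
    c.h i < r.x k i ∧ r.x k i < c.h i + 1 := by
  obtain ⟨l, rfl⟩ : ∃ l, k = l + 1 := ⟨k - 1, by omega⟩
  have := r.side l i hi
  rw [hd] at this
  constructor <;> linarith [this.1, this.2]

theorem sideL {k : ℕ} (hk : 1 ≤ k) {i : Fin n} (hi : i ∈ r.A k) (hd : c.d i = -1) :
    c.h i - 1 < r.x k i ∧ r.x k i < c.h i := by
  obtain ⟨l, rfl⟩ : ∃ l, k = l + 1 := ⟨k - 1, by omega⟩
  have := r.side l i hi
  rw [hd] at this
  constructor <;> linarith [this.1, this.2]

/-- survivors are alive at all late events and nobody else -/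
theorem exists_final : ∃ K, ∀ k, K ≤ k → r.A k = r.survivors := by
  classical
  have h : ∀ i : Fin n, ∃ K, ∀ k, K ≤ k → (i ∈ r.A k ↔ i ∈ r.survivors) := by
    intro i
    by_cases hi : i ∈ r.survivors
    · exact ⟨0, fun k _ => ⟨fun _ => hi, fun _ => (r.mem_survivors i).1 hi k⟩⟩
    · have := mt (r.mem_survivors i).2 hi
      push Not at this
      obtain ⟨K, hK⟩ := this
      exact ⟨K, fun k hk => ⟨fun h => absurd (r.mem_of_le hk h) hK, fun h => absurd h hi⟩⟩
  choose K hK using h
  refine ⟨Finset.univ.sup K, fun k hk => ?_⟩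
  ext i
  exact hK i k (le_trans (Finset.le_sup (Finset.mem_univ i)) hk)

end Run
end Pool.Agent.X13.Rob
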