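import Pool.Agent.X13.Rob.Upper

namespace Pool.Agent.X13.Rob

variable {n : ℕ} {c : Config n} (r : Run c)

namespace Run

theorem no_perfect (hS : r.survivors = c.dir 1)
    (hcard : (c.dir 1).card = 2 * (c.dir (-1)).card) (hpos : 0 < (c.dir (-1)).card)
    (hneg : ∀ k, (r.cls (-1) k).card = (c.dir (-1)).card) : False := by
  classical
  obtain ⟨K0, hA, hbal⟩ := r.balance
  obtain ⟨K1, hK1⟩ := r.tunb 1
  set K := max (max K0 K1) 1 with hKdef
  have hK0 : K0 ≤ K := by omega
  have htK : 1 < r.t K := lt_of_lt_of_le hK1 (r.t_strictMono.monotone (by omega))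
  have hne : (r.cls 1 K).Nonempty := by
    rw [← Finset.card_pos, hbal K hK0, hneg K]; exact hpos
  obtain ⟨j, hj⟩ := hne
  obtain ⟨hjA, hjv⟩ := r.mem_cls.1 hj
  have hjd : c.d j = 1 := by
    rw [hA K hK0, hS] at hjA; exact c.mem_dir.1 hjA
  obtain ⟨J, m, y, hy, hm0, h1, h2⟩ := r.chain (K := K) (by omega) hjA hjv hjd
  -- monotonicity of lifted bases
  set β : ℕ → ℝ := fun k => c.h (J k) + m k with hβ
  have hmono : ∀ k l, k ≤ l → l ≤ K → β k ≤ β l := by
    intro k l hkl
    induction l, hkl using Nat.le_induction with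
    | base => intro _; exact le_rfl
    | succ l _ ih => intro hl; exact (ih (by omega)).trans (h2 l (by omega)).2.2.1
  have hβ0 : β 0 = y := by simp [hβ, hm0, hy]
  -- crossing times
  set S : Fin n × Bool → ℝ := fun p => (Int.fract (c.h p.1 - y) + (if p.2 then 1 else 0)) / 2 with hSdef
  have hfr : ∀ q, c.d q = -1 → 0 < Int.fract (c.h q - y) := by
    intro q hq
    rcases (Int.fract_nonneg (c.h q - y)).lt_or_eq with h | h
    · exact h
    · exfalso
      have hne : J 0 ≠ q := by
        rintro rfl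
        rw [(h1 0 (by omega)).2.2.1] at hq; norm_num at hq
      apply c.ne_of_ne hne ⌊c.h q - y⌋
      have := Int.floor_add_fract (c.h q - y)
      rw [← hy]; linarith
  have hS0 : ∀ p : Fin n × Bool, c.d p.1 = -1 → 0 < S p ∧ S p < 1 := by
    intro p hp
    have a := hfr p.1 hp
    have b := Int.fract_lt_one (c.h p.1 - y)
    simp only [hSdef]
    split_ifs <;> constructor <;> linarith
  have hcross : ∀ p : Fin n × Bool, c.d p.1 = -1 → ∃ k, k < K ∧ r.t (k+1) = S p ∧ J k ≠ J (k+1) := by
    intro p hp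
    obtain ⟨hs0, hs1⟩ := hS0 p hp
    have hex : ∃ k, S p ≤ r.t k := ⟨K, by linarith⟩
    set k0 := Nat.find hex with hk0
    have hk0s : S p ≤ r.t k0 := Nat.find_spec hex
    have hk0K : k0 ≤ K := Nat.find_min' hex (by linarith)
    have hk01 : k0 ≠ 0 := by
      intro h; rw [h, r.t0] at hk0s; linarith
    obtain ⟨k, hk⟩ : ∃ k, k0 = k + 1 := ⟨k0 - 1, by omega⟩
    have hlt : r.t k < S p := by
      by_contra h
      push Not at h
      exact Nat.find_min hex (m := k) (by omega) h
    rw [hk] at hk0s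
    have e1 : y + S p = c.h p.1 - S p + ((if p.2 then 1 else 0 : ℤ) - ⌊c.h p.1 - y⌋ : ℤ) := by
      have := Int.floor_add_fract (c.h p.1 - y)
      simp only [hSdef]
      split_ifs <;> push_cast <;> linarith
    obtain ⟨b1, b2, b3, b4⟩ := h1 k (by omega)
    refine ⟨k, by omega, ?_⟩
    rcases hk0s.lt_or_eq with hlt2 | heq
    · exfalso
      obtain ⟨i, hi, hvi, u, hu⟩ := r.label_surj (hneg k) hp
      have hne : J k ≠ i := by
        rintro rfl; rw [b2] at hvi; norm_num at hvi
      refine r.noMeet k (S p) hlt hlt2 (J k) b1 i hi hne ?_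
      rw [b2, hvi]
      refine ⟨((if p.2 then 1 else 0 : ℤ) - ⌊c.h p.1 - y⌋ : ℤ) - m k - u, ?_⟩
      push_cast at e1 ⊢
      linarith
    · refine ⟨heq.symm, ?_⟩
      obtain ⟨i1, hi1, hvi1, u, hu⟩ := r.label_surj (hneg (k+1)) hp
      obtain ⟨i, hi, hvi, w, hw⟩ := r.pred k hi1
      rw [hvi1] at hvi
      have hne : J k ≠ i := by
        rintro rfl; rw [b2] at hvi; norm_num at hvi
      obtain ⟨d1, d2, d3, d4⟩ := h2 k (by omega)
      have hS' : Same (r.x (k+1) (J k)) (r.x (k+1) i) := by
        rw [← heq] at d2 hu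
        refine ⟨((if p.2 then 1 else 0 : ℤ) - ⌊c.h p.1 - y⌋ : ℤ) - m k - u - w, ?_⟩
        push_cast at e1 ⊢
        linarith
      have := r.coll k (J k) d1 i hi hne hS'
      rw [hvi] at this
      intro hJ
      rw [hJ, (h1 (k+1) (by omega)).2.1] at this
      norm_num at this
  have hch : ∀ p : Fin n × Bool, ∃ k, c.d p.1 = -1 → (k < K ∧ r.t (k+1) = S p ∧ J k ≠ J (k+1)) := by
    intro p
    by_cases hp : c.d p.1 = -1
    · obtain ⟨k, hk⟩ := hcross p hp; exact ⟨k, fun _ => hk⟩
    · exact ⟨0, fun h => absurd h hp⟩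
  choose κ hκ using hch
  have hb : ∀ p : Fin n × Bool, c.d p.1 = -1 → y < β (κ p + 1) ∧ β (κ p + 1) < y + 1 := by
    intro p hp
    obtain ⟨a1, a2, a3⟩ := hκ p hp
    have l1 := (h2 (κ p) a1).2.2.2 a3
    have l2 := hmono 0 (κ p) (by omega) (by omega)
    rw [hβ0] at l2
    obtain ⟨b1, b2, b3, b4⟩ := h1 (κ p + 1) (by omega)
    have l3 := (r.sideR (k := κ p + 1) (by omega) b1 b3).1
    have l4 := (hS0 p hp).2
    constructor
    · simp only [hβ] at l2 ⊢; linarith
    · simp only [hβ]; linarith
  have hbeq : ∀ p p' : Fin n × Bool, c.d p.1 = -1 → c.d p'.1 = -1 →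
      J (κ p + 1) = J (κ p' + 1) → β (κ p + 1) = β (κ p' + 1) := by
    intro p p' hp hp' hJ
    have a := hb p hp
    have b := hb p' hp'
    simp only [hβ] at a b ⊢
    rw [hJ] at a ⊢
    have : m (κ p + 1) = m (κ p' + 1) := by
      have l1 : (m (κ p + 1) : ℝ) < m (κ p' + 1) + 1 := by linarith [a.2, b.1]
      have l2 : (m (κ p' + 1) : ℝ) < m (κ p + 1) + 1 := by linarith [a.1, b.2]
      have l1' : m (κ p + 1) < m (κ p' + 1) + 1 := by exact_mod_cast l1
      have l2' : m (κ p' + 1) < m (κ p + 1) + 1 := by exact_mod_cast l2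
      omega
    rw [this]
  have hlt : ∀ p p' : Fin n × Bool, c.d p.1 = -1 → c.d p'.1 = -1 → S p < S p' →
      β (κ p + 1) < β (κ p' + 1) := by
    intro p p' hp hp' hs
    obtain ⟨a1, a2, a3⟩ := hκ p hp
    obtain ⟨b1, b2, b3⟩ := hκ p' hp'
    rw [← a2, ← b2] at hs
    have hk := r.t_strictMono.lt_iff_lt.1 hs
    have l1 := hmono (κ p + 1) (κ p') (by omega) (by omega)
    have l2 := (h2 (κ p') b1).2.2.2 b3
    simp only [hβ] at l1 l2 ⊢
    linarith
  have hcardle : (c.dir (-1) ×ˢ (Finset.univ : Finset Bool)).card ≤ ((c.dir 1).erase (J 0)).card := by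
    refine Finset.card_le_card_of_injOn (fun p => J (κ p + 1)) ?_ ?_
    · intro p hp
      have hp' : c.d p.1 = -1 := by
        have := (Finset.mem_product.1 hp).1; exact c.mem_dir.1 this
      obtain ⟨a1, a2, a3⟩ := hκ p hp'
      have hd := (h1 (κ p + 1) (by omega)).2.2.1
      refine Finset.mem_coe.2 (Finset.mem_erase.2 ⟨?_, c.mem_dir.2 hd⟩)
      intro hJ
      have hb' := hb p hp'
      simp only [hβ, hJ] at hb'
      rw [← hy] at hb'
      have l1 : (0:ℝ) < m (κ p + 1) := by linarith [hb'.1]
      have l2 : (m (κ p + 1) : ℝ) < 1 := by linarith [hb'.2]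
      have l1' : (0:ℤ) < m (κ p + 1) := by exact_mod_cast l1
      have l2' : m (κ p + 1) < 1 := by exact_mod_cast l2
      omega
    · intro p hp p' hp' hJ
      have hq : c.d p.1 = -1 := c.mem_dir.1 (Finset.mem_product.1 hp).1
      have hq' : c.d p'.1 = -1 := c.mem_dir.1 (Finset.mem_product.1 hp').1
      have hβe := hbeq p p' hq hq' hJ
      have hSe : S p = S p' := by
        rcases lt_trichotomy (S p) (S p') with h | h | h
        · have := hlt p p' hq hq' h; linarith
        · exact h
        · have := hlt p' p hq' hq h; linarith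
      have f0 := Int.fract_nonneg (c.h p.1 - y)
      have f1 := Int.fract_lt_one (c.h p.1 - y)
      have g0 := Int.fract_nonneg (c.h p'.1 - y)
      have g1 := Int.fract_lt_one (c.h p'.1 - y)
      have hpb : p.2 = p'.2 := by
        by_contra hne
        simp only [hSdef] at hSe
        rcases hb1 : p.2 with _ | _ <;> rcases hb2 : p'.2 with _ | _ <;>
          rw [hb1, hb2] at hSe hne <;> simp at hSe hne <;> linarith
      have hfe : Int.fract (c.h p.1 - y) = Int.fract (c.h p'.1 - y) := by
        simp only [hSdef] at hSe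
        rw [hpb] at hSe
        linarith
      have hp1 : p.1 = p'.1 := by
        by_contra hne
        obtain ⟨z, hz⟩ := Int.fract_eq_fract.1 hfe
        exact c.distinct p.1 p'.1 hne ⟨z, by linarith⟩
      exact Prod.ext hp1 hpb
  have hJ0 : J 0 ∈ c.dir 1 := c.mem_dir.2 (h1 0 (by omega)).2.2.1
  rw [Finset.card_product, Finset.card_erase_of_mem hJ0] at hcardle
  simp at hcardle
  omega

/-- The bound if all survivors started in direction `1`. -/
theorem bound_right (h : r.survivors ⊆ c.dir 1) :
    ∃ a, r.survivors.card = 2 * a ∧ (a = 0 ∨ 3 * a + 1 ≤ n) := by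
  classical
  obtain ⟨K, hA, hbal⟩ := r.balance
  have e1 := r.card_A K
  rw [hA K le_rfl, hbal K le_rfl] at e1
  set a := (r.cls (-1) K).card with ha
  refine ⟨a, by omega, ?_⟩
  by_contra hcon
  push Not at hcon
  obtain ⟨ha0, hn⟩ := hcon
  have hcd := c.card_dir
  have hle1 : r.survivors.card ≤ (c.dir 1).card := Finset.card_le_card h
  have hle2 : a ≤ (c.dir (-1)).card := by
    have := r.cls_card_anti (-1) (Nat.zero_le K)
    rwa [r.cls_zero] at this
  have hS : r.survivors = c.dir 1 := Finset.eq_of_subset_of_card_le h (by omega)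
  have hneg : ∀ k, (r.cls (-1) k).card = (c.dir (-1)).card := by
    intro k
    have b1 := r.cls_card_anti (-1) (Nat.zero_le k)
    rw [r.cls_zero] at b1
    have b2 : a ≤ (r.cls (-1) k).card := by
      rcases le_total k K with hk | hk
      · exact r.cls_card_anti (-1) hk
      · have e2 := r.card_A k
        rw [hA k hk, hbal k hk] at e2
        omega
    omega
  exact r.no_perfect hS (by rw [← hS]; omega) (by omega) hneg

end Run

/-- mirror image of a configuration -/
def Config.mirror (c : Config n) : Config n where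
  h := fun i => - c.h i
  d := fun i => - c.d i
  distinct := by
    intro i j hij ⟨m, hm⟩
    exact c.distinct i j hij ⟨-m, by push_cast; linarith⟩
  unit := by
    intro i
    rcases c.unit i with h | h
    · right; rw [h]
    · left; rw [h]; norm_num

theorem same_neg {x y : ℝ} : Same (-x) (-y) ↔ Same x y := by
  constructor
  · rintro ⟨m, hm⟩; exact ⟨-m, by push_cast; linarith⟩
  · rintro ⟨m, hm⟩; exact ⟨-m, by push_cast; linarith⟩

/-- mirror image of a run -/
def Run.mirror (r : Run c) : Run c.mirror where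
  t := r.t
  A := r.A
  x := fun k i => - r.x k i
  v := fun k i => - r.v k i
  t0 := r.t0
  tlt := r.tlt
  tunb := r.tunb
  A0 := r.A0
  x0 := fun i => by simp [Config.mirror, r.x0]
  v0 := fun i => by simp [Config.mirror, r.v0]
  move := fun k i hi => by rw [r.move k i hi]; ring
  noHome := fun k s h1 h2 i hi hs => by
    apply r.noHome k s h1 h2 i hi
    rw [← same_neg]
    have e : -(r.x k i + r.v k i * (s - r.t k)) = - r.x k i + - r.v k i * (s - r.t k) := by ring
    rw [e]; exact hs
  noMeet := fun k s h1 h2 i hi j hj hij hs => by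
    apply r.noMeet k s h1 h2 i hi j hj hij
    rw [← same_neg]
    have e : ∀ i, -(r.x k i + r.v k i * (s - r.t k)) = - r.x k i + - r.v k i * (s - r.t k) := by
      intro i; ring
    rw [e, e]; exact hs
  death := fun k i => by
    rw [r.death k i]
    show _ ↔ _ ∧ ¬ Same (- r.x (k+1) i) (- c.h i)
    rw [same_neg]
  coll := fun k i hi j hj hij hs => by
    rw [same_neg] at hs
    rw [r.coll k i hi j hj hij hs]
  free := fun k i hi hf => by
    rw [r.free k i hi (fun j hj hji hs => hf j hj hji (same_neg.2 hs))]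

namespace Run

theorem mirror_survivors : r.mirror.survivors = r.survivors := by
  ext i
  rw [r.mirror.mem_survivors, r.mem_survivors]
  rfl

/-- The number of survivors is an even number `2a` with `a = 0` or `3a + 1 ≤ n`. -/
theorem bound : ∃ a, r.survivors.card = 2 * a ∧ (a = 0 ∨ 3 * a + 1 ≤ n) := by
  classical
  by_cases h : ∃ q ∈ r.survivors, c.d q = -1
  · obtain ⟨q, hq, hdq⟩ := h
    rw [← r.mirror_survivors]
    apply r.mirror.bound_right
    intro s hs
    rw [r.mirror_survivors] at hs
    have := r.same_type hq hs hdq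
    rw [Config.mem_dir]
    show - c.d s = 1
    rw [this]; norm_num
  · push Not at h
    apply r.bound_right
    intro s hs
    exact c.mem_dir.2 ((c.unit s).resolve_right (h s hs))

theorem bound' : r.survivors.card ≤ 2 * ((n - 1) / 3) := by
  obtain ⟨a, h1, h2⟩ := r.bound
  omega

end Run
end Pool.Agent.X13.Rob
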