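import Pool.Agent.X13.Rob.Model

namespace Pool.Agent.X13.Rob

open Classical

/-- integer data: circumference `C` (even), homes `H` (even, distinct modulo `C`), directions -/
structure IntData (n : ℕ) where
  C : ℤ
  H : Fin n → ℤ
  D : Fin n → ℤ
  Cpos : 0 < C
  Ceven : 2 ∣ C
  Heven : ∀ i, 2 ∣ H i
  dist : ∀ i j, i ≠ j → ¬ C ∣ H i - H j
  unit : ∀ i, D i = 1 ∨ D i = -1

variable {n : ℕ}

theorem same_div {C x y : ℤ} (hC : 0 < C) : Same ((x:ℝ) / C) ((y:ℝ) / C) ↔ C ∣ x - y := by
  have hC' : (C:ℝ) ≠ 0 := by
    have : (0:ℝ) < C := by exact_mod_cast hC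
    exact ne_of_gt this
  constructor
  · rintro ⟨m, hm⟩
    refine ⟨m, ?_⟩
    field_simp at hm
    have : (x:ℝ) = y + C * m := by linarith
    have h2 : x = y + C * m := by exact_mod_cast this
    linarith
  · rintro ⟨m, hm⟩
    refine ⟨m, ?_⟩
    have : x = y + C * m := by linarith
    rw [this]
    push_cast
    field_simp

namespace IntData

variable (I : IntData n)

/-- the configuration -/
noncomputable def config : Config n where
  h := fun i => (I.H i : ℝ) / I.C
  d := fun i => (I.D i : ℝ)
  distinct := by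
    intro i j hij h
    exact I.dist i j hij ((same_div I.Cpos).1 h)
  unit := by
    intro i
    rcases I.unit i with h | h
    · left; rw [h]; simp
    · right; rw [h]; simp

/-- discrete state -/
structure St (n : ℕ) where
  al : Fin n → Prop
  x : Fin n → ℤ
  v : Fin n → ℤ

/-- alive after the step -/
def al' (s : St n) (i : Fin n) : Prop := s.al i ∧ ¬ I.C ∣ (s.x i + s.v i) - I.H i

noncomputable def step (s : St n) : St n where
  al := I.al' s
  x := fun i => s.x i + s.v i
  v := fun i => if (∃ j, j ≠ i ∧ I.al' s j ∧ I.C ∣ (s.x i + s.v i) - (s.x j + s.v j)) then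
    - s.v i else s.v i

noncomputable def st : ℕ → St n
  | 0 => ⟨fun _ => True, I.H, I.D⟩
  | k + 1 => I.step (st k)

theorem st_v (k : ℕ) (i : Fin n) : (I.st k).v i = 1 ∨ (I.st k).v i = -1 := by
  induction k with
  | zero => exact I.unit i
  | succ k ih =>
    show (I.step (I.st k)).v i = 1 ∨ (I.step (I.st k)).v i = -1
    simp only [step]
    split_ifs
    · rcases ih with h | h <;> rw [h] <;> norm_num
    · exact ih

theorem st_par (k : ℕ) (i : Fin n) : (2:ℤ) ∣ (I.st k).x i - k := by
  induction k with
  | zero =>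
    show (2:ℤ) ∣ I.H i - ((0:ℕ):ℤ)
    simpa using I.Heven i
  | succ k ih =>
    show (2:ℤ) ∣ ((I.st k).x i + (I.st k).v i) - ((k + 1 : ℕ) : ℤ)
    push_cast
    rcases I.st_v k i with h | h <;> rw [h] <;> omega

theorem st_opp (k : ℕ) : ∀ i j, i ≠ j → (I.st k).al i → (I.st k).al j →
    I.C ∣ (I.st k).x i - (I.st k).x j → (I.st k).v i ≠ (I.st k).v j := by
  induction k with
  | zero =>
    intro i j hij _ _ h
    exact absurd h (I.dist i j hij)
  | succ k ih =>
    intro i j hij hi hj h
    have hi' : I.al' (I.st k) i := hi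
    have hj' : I.al' (I.st k) j := hj
    have h' : I.C ∣ ((I.st k).x i + (I.st k).v i) - ((I.st k).x j + (I.st k).v j) := h
    have hne : (I.st k).v i ≠ (I.st k).v j := by
      intro he
      apply ih i j hij hi'.1 hj'.1 _ he
      rw [he] at h'
      have e : (I.st k).x i + (I.st k).v j - ((I.st k).x j + (I.st k).v j)
        = (I.st k).x i - (I.st k).x j := by ring
      rwa [e] at h'
    show (I.step (I.st k)).v i ≠ (I.step (I.st k)).v j
    simp only [step]
    rw [if_pos ⟨j, Ne.symm hij, hj', h'⟩, if_pos ⟨i, hij, hi', by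
      have := (dvd_neg (α := ℤ)).2 h'
      have e : -((I.st k).x i + (I.st k).v i - ((I.st k).x j + (I.st k).v j))
        = (I.st k).x j + (I.st k).v j - ((I.st k).x i + (I.st k).v i) := by ring
      rwa [e] at this⟩]
    intro he; exact hne (neg_injective he)

theorem st_opp' (k : ℕ) {i j : Fin n} (hij : i ≠ j) (hi : (I.st k).al i) (hj : (I.st k).al j)
    (h : I.C ∣ ((I.st k).x i + (I.st k).v i) - ((I.st k).x j + (I.st k).v j)) :
    (I.st k).v j = - (I.st k).v i := by
  have hne : (I.st k).v i ≠ (I.st k).v j := by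
    intro he
    apply I.st_opp k i j hij hi hj _ he
    rw [he] at h
    have e : (I.st k).x i + (I.st k).v j - ((I.st k).x j + (I.st k).v j)
      = (I.st k).x i - (I.st k).x j := by ring
    rwa [e] at h
  rcases I.st_v k i with a | a <;> rcases I.st_v k j with b | b
  · exact absurd (a.trans b.symm) hne
  · rw [a, b]
  · rw [a, b]; norm_num
  · exact absurd (a.trans b.symm) hne

/-- the history of an integer configuration -/
noncomputable def run : Run I.config where
  t := fun k => (k:ℝ) / I.C
  A := fun k => Finset.univ.filter (fun i => (I.st k).al i)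
  x := fun k i => ((I.st k).x i : ℝ) / I.C
  v := fun k i => ((I.st k).v i : ℝ)
  t0 := by simp
  tlt := by
    intro k
    have : (0:ℝ) < I.C := by exact_mod_cast I.Cpos
    rw [div_lt_div_iff_of_pos_right this]
    push_cast; linarith
  tunb := by
    intro B
    have : (0:ℝ) < I.C := by exact_mod_cast I.Cpos
    obtain ⟨k, hk⟩ := exists_nat_gt (B * I.C)
    exact ⟨k, by rwa [lt_div_iff₀ this]⟩
  A0 := by
    ext i; simp [st]
  x0 := fun i => rfl
  v0 := fun i => rfl
  move := by
    intro k i _
    have : (I.C:ℝ) ≠ 0 := by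
      have : (0:ℝ) < I.C := by exact_mod_cast I.Cpos
      exact ne_of_gt this
    show (((I.st k).x i + (I.st k).v i : ℤ) : ℝ) / I.C = _
    push_cast
    field_simp
    ring
  noHome := by
    intro k s h1 h2 i _ ⟨m, hm⟩
    have hC : (0:ℝ) < I.C := by exact_mod_cast I.Cpos
    rw [div_lt_iff₀ hC] at h1
    rw [lt_div_iff₀ hC] at h2
    push_cast at h2
    have hm' : ((I.st k).x i : ℝ) + (I.st k).v i * (s * I.C - k) = I.H i + m * I.C := by
      have e : ((I.config).h i) = (I.H i : ℝ) / I.C := rfl
      rw [e] at hm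
      field_simp at hm
      linarith
    rcases I.st_v k i with h | h
    · rw [h] at hm'
      have e : s * I.C = ((I.H i + m * I.C - (I.st k).x i + k : ℤ) : ℝ) := by
        push_cast at hm' ⊢; linarith
      rw [e] at h1 h2
      have h1' : (k:ℤ) < I.H i + m * I.C - (I.st k).x i + k := by exact_mod_cast h1
      have h2' : I.H i + m * I.C - (I.st k).x i + k < k + 1 := by exact_mod_cast h2
      omega
    · rw [h] at hm'
      have e : s * I.C = ((-(I.H i + m * I.C - (I.st k).x i) + k : ℤ) : ℝ) := by
        push_cast at hm' ⊢; linarith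
      rw [e] at h1 h2
      have h1' : (k:ℤ) < -(I.H i + m * I.C - (I.st k).x i) + k := by exact_mod_cast h1
      have h2' : -(I.H i + m * I.C - (I.st k).x i) + k < k + 1 := by exact_mod_cast h2
      omega
  noMeet := by
    intro k s h1 h2 i hi j hj hij ⟨m, hm⟩
    simp only [Finset.mem_filter, Finset.mem_univ, true_and] at hi hj
    have hC : (0:ℝ) < I.C := by exact_mod_cast I.Cpos
    rw [div_lt_iff₀ hC] at h1
    rw [lt_div_iff₀ hC] at h2
    push_cast at h2
    have hm' : ((I.st k).x i : ℝ) + (I.st k).v i * (s * I.C - k)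
        = (I.st k).x j + (I.st k).v j * (s * I.C - k) + m * I.C := by
      field_simp at hm
      linarith
    have p1 := I.st_par k i
    have p2 := I.st_par k j
    obtain ⟨u1, hu1⟩ := p1
    obtain ⟨u2, hu2⟩ := p2
    obtain ⟨u3, hu3⟩ := I.Ceven
    by_cases hv : (I.st k).v i = (I.st k).v j
    · apply I.st_opp k i j hij hi hj _ hv
      refine ⟨m, ?_⟩
      rw [hv] at hm'
      have : ((I.st k).x i : ℝ) - (I.st k).x j = I.C * m := by linarith
      exact_mod_cast this
    · have x1 : (I.st k).x i = 2 * u1 + k := by linarith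
      have x2 : (I.st k).x j = 2 * u2 + k := by linarith
      rw [x1, x2] at hm'
      rcases I.st_v k i with a | a <;> rcases I.st_v k j with b | b
      · exact hv (a.trans b.symm)
      · rw [a, b] at hm'
        have e : s * I.C = ((k + (u2 - u1 + m * u3) : ℤ) : ℝ) := by
          have h3 : (I.C : ℝ) = 2 * u3 := by exact_mod_cast hu3
          push_cast at hm' ⊢
          have h4 : (m:ℝ) * I.C = 2 * (m * u3) := by rw [h3]; ring
          linarith
        rw [e] at h1 h2
        have h1' : (k:ℤ) < k + (u2 - u1 + m * u3) := by exact_mod_cast h1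
        have h2' : k + (u2 - u1 + m * u3) < (k:ℤ) + 1 := by exact_mod_cast h2
        omega
      · rw [a, b] at hm'
        have e : s * I.C = ((k - (u2 - u1 + m * u3) : ℤ) : ℝ) := by
          have h3 : (I.C : ℝ) = 2 * u3 := by exact_mod_cast hu3
          push_cast at hm' ⊢
          have h4 : (m:ℝ) * I.C = 2 * (m * u3) := by rw [h3]; ring
          linarith
        rw [e] at h1 h2
        have h1' : (k:ℤ) < k - (u2 - u1 + m * u3) := by exact_mod_cast h1
        have h2' : k - (u2 - u1 + m * u3) < (k:ℤ) + 1 := by exact_mod_cast h2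
        omega
      · exact hv (a.trans b.symm)
  death := by
    intro k i
    simp only [Finset.mem_filter, Finset.mem_univ, true_and]
    show I.al' (I.st k) i ↔ (I.st k).al i ∧
      ¬ Same ((((I.st k).x i + (I.st k).v i : ℤ) : ℝ) / I.C) ((I.H i : ℝ) / I.C)
    rw [same_div I.Cpos]
    rfl
  coll := by
    intro k i hi j hj hij hS
    simp only [Finset.mem_filter, Finset.mem_univ, true_and] at hi hj
    have hi' : I.al' (I.st k) i := hi
    have hj' : I.al' (I.st k) j := hj
    have hd : I.C ∣ ((I.st k).x i + (I.st k).v i) - ((I.st k).x j + (I.st k).v j) :=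
      (same_div I.Cpos).1 hS
    have ho := I.st_opp' k hij hi'.1 hj'.1 hd
    show (((I.step (I.st k)).v i : ℤ) : ℝ) = ((I.st k).v j : ℝ)
    simp only [step]
    rw [if_pos ⟨j, Ne.symm hij, hj', hd⟩, ho]
  free := by
    intro k i hi hf
    have hne : ¬ ∃ j, j ≠ i ∧ I.al' (I.st k) j ∧
        I.C ∣ ((I.st k).x i + (I.st k).v i) - ((I.st k).x j + (I.st k).v j) := by
      rintro ⟨j, hji, hj, hd⟩
      refine hf j ?_ hji ((same_div I.Cpos).2 hd)
      simp only [Finset.mem_filter, Finset.mem_univ, true_and]
      exact hj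
    show (((I.step (I.st k)).v i : ℤ) : ℝ) = ((I.st k).v i : ℝ)
    simp only [step]
    rw [if_neg hne]

end IntData
end Pool.Agent.X13.Rob
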