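import Pool.Agent.X13.Rob.Low4
import Pool.Agent.X13.Rob.Exist

namespace Pool.Agent.X13.Rob

/-- home bases of the family, as integers: `a` homes left of `0`, `a` homes growing geometrically,
the others in a cluster -/
def Hn (a : ℕ) (m : ℕ) : ℤ :=
  if m < a then -2 * ((a:ℤ) - m) else
  if m < 2 * a then 2 * (a + 1) * 3 ^ (m - a) else 2 * ((a + 1) * 3 ^ a + ((m:ℤ) - 2 * a))

theorem Hn_strictMono {a : ℕ} (ha : 1 ≤ a) : StrictMono (Hn a) := by
  apply strictMono_nat_of_lt_succ
  intro m
  unfold Hn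
  by_cases h1 : m + 1 < a
  · rw [if_pos (by omega), if_pos h1]; push_cast; linarith
  · by_cases h2 : m < a
    · rw [if_pos h2, if_neg h1, if_pos (by omega)]
      have : (0:ℤ) < 2 * (a + 1) * 3 ^ (m + 1 - a) := by positivity
      have h3 : (m:ℤ) < a := by exact_mod_cast h2
      linarith
    · rw [if_neg h2, if_neg h1]
      by_cases h3 : m + 1 < 2 * a
      · rw [if_pos (by omega), if_pos h3]
        have e : m + 1 - a = (m - a) + 1 := by omega
        rw [e, pow_succ]
        have : (0:ℤ) < 2 * (a + 1) * 3 ^ (m - a) := by positivity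
        nlinarith
      · by_cases h4 : m < 2 * a
        · rw [if_pos h4, if_neg h3]
          have e : a = (m - a) + 1 := by omega
          have e2 : ((m + 1 : ℕ) : ℤ) = 2 * a := by
            have : m + 1 = 2 * a := by omega
            exact_mod_cast this
          have e3 : (3:ℤ) ^ a = 3 ^ (m - a) * 3 := by
            conv_lhs => rw [e]
            rw [pow_succ]
          rw [e2, e3]
          have : (0:ℤ) < 3 ^ (m - a) := by positivity
          have h5 : (0:ℤ) < a := by exact_mod_cast ha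
          nlinarith
        · rw [if_neg h4, if_neg h3]; push_cast; linarith

theorem Hn_even (a m : ℕ) : (2:ℤ) ∣ Hn a m := by
  unfold Hn
  split_ifs
  · exact ⟨-((a:ℤ) - m), by ring⟩
  · exact ⟨(a + 1) * 3 ^ (m - a), by ring⟩
  · exact ⟨_, rfl⟩

theorem three_pow_ge (a : ℕ) : (a:ℤ) + 2 ≤ 3 ^ a + 1 := by
  induction a with
  | zero => norm_num
  | succ a ih =>
    rw [pow_succ]; push_cast
    have : (1:ℤ) ≤ 3 ^ a := one_le_pow₀ (by norm_num)
    linarith

theorem Hn_lt {a e m : ℕ} (ha : 1 ≤ a) (he : e ≤ 2) (hm : m < 3 * a + 1 + e) :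
    Hn a m < 4 * (a + 1) * 3 ^ a := by
  have h1 : Hn a m ≤ Hn a (3 * a + e) := (Hn_strictMono ha).monotone (by omega)
  have h2 : Hn a (3 * a + e) = 2 * ((a + 1) * 3 ^ a + ((a:ℤ) + e)) := by
    unfold Hn
    rw [if_neg (by omega), if_neg (by omega)]
    push_cast; ring
  have h3 : (3:ℤ) ≤ 3 ^ a := by
    calc (3:ℤ) = 3 ^ 1 := by norm_num
      _ ≤ 3 ^ a := pow_le_pow_right₀ (by norm_num) ha
  have h4 : (a:ℤ) + e < (a + 1) * 3 ^ a := by
    have h5 : (e:ℤ) ≤ 2 := by exact_mod_cast he
    have h6 : (0:ℤ) ≤ a := by positivity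
    nlinarith
  rw [h2] at h1
  nlinarith

theorem Hn_gt (a m : ℕ) (ha : 1 ≤ a) : -2 * (a:ℤ) ≤ Hn a m := by
  have h1 : Hn a 0 ≤ Hn a m := (Hn_strictMono ha).monotone (Nat.zero_le _)
  have h2 : Hn a 0 = -2 * a := by unfold Hn; rw [if_pos (by omega)]; push_cast; ring
  linarith

/-- the integer data of the family -/
def famData (a e : ℕ) (ha : 1 ≤ a) (he : e ≤ 2) : IntData (3 * a + 1 + e) where
  C := 32 * (a + 1) * 3 ^ a
  H := fun i => Hn a i.val
  D := fun i => if i.val < a then -1 else 1
  Cpos := by positivity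
  Ceven := ⟨16 * (a + 1) * 3 ^ a, by ring⟩
  Heven := fun i => Hn_even a _
  dist := by
    intro i j hij ⟨m, hm⟩
    have h1 := Hn_lt ha he i.isLt
    have h2 := Hn_lt ha he j.isLt
    have h3 := Hn_gt a i.val ha
    have h4 := Hn_gt a j.val ha
    have h5 : (1:ℤ) ≤ 3 ^ a := one_le_pow₀ (by norm_num)
    have h6 : (0:ℤ) ≤ a := by positivity
    have hC : (2:ℤ) * a ≤ 2 * (a + 1) * 3 ^ a := by nlinarith
    have hP : (0:ℤ) < (a + 1) * 3 ^ a := by positivity
    have hne : Hn a i.val ≠ Hn a j.val := by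
      intro h
      exact hij (Fin.ext ((Hn_strictMono ha).injective h))
    have hm1 : m < 1 := by
      by_contra h
      push Not at h
      have : (32 * ((a:ℤ) + 1) * 3 ^ a) * 1 ≤ (32 * (a + 1) * 3 ^ a) * m :=
        mul_le_mul_of_nonneg_left h (by positivity)
      nlinarith
    have hm2 : -1 < m := by
      by_contra h
      push Not at h
      have : (32 * ((a:ℤ) + 1) * 3 ^ a) * m ≤ (32 * (a + 1) * 3 ^ a) * (-1) :=
        mul_le_mul_of_nonneg_left h (by positivity)
      nlinarith
    have : m = 0 := by omega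
    rw [this] at hm
    apply hne; linarith
  unit := by
    intro i
    by_cases h : i.val < a
    · right; simp [h]
    · left; simp [h]

theorem card_val_lt {n a : ℕ} (h : a ≤ n) :
    ((Finset.univ : Finset (Fin n)).filter (fun i => i.val < a)).card = a := by
  have : ((Finset.univ : Finset (Fin n)).filter (fun i => i.val < a)).image Fin.val
      = Finset.range a := by
    ext m
    rw [Finset.mem_image, Finset.mem_range]
    constructor
    · rintro ⟨i, hi, rfl⟩; exact (Finset.mem_filter.1 hi).2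
    · intro hm
      exact ⟨⟨m, by omega⟩, Finset.mem_filter.2 ⟨Finset.mem_univ _, hm⟩, rfl⟩
  rw [← Finset.card_image_of_injective _ Fin.val_injective, this, Finset.card_range]

end Pool.Agent.X13.Rob
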