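import Pool.Agent.X13.Rob.Family

namespace Pool.Agent.X13.Rob

theorem Hn_pos {a m : ℕ} (ha : 1 ≤ a) (h : a ≤ m) : 2 * ((a:ℤ) + 1) ≤ Hn a m := by
  have h1 : Hn a a ≤ Hn a m := (Hn_strictMono ha).monotone h
  have h2 : Hn a a = 2 * (a + 1) := by
    unfold Hn; rw [if_neg (by omega), if_pos (by omega)]; simp
  linarith

theorem Hn_neg {a m : ℕ} (h : m < a) : Hn a m < 0 := by
  unfold Hn; rw [if_pos h]
  have : (m:ℤ) < a := by exact_mod_cast h
  linarith

theorem Hn_succ {a m : ℕ} (h1 : a ≤ m) (h2 : m < 2 * a) : Hn a (m+1) = 3 * Hn a m := by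
  have hr : Hn a m = 2 * (a + 1) * 3 ^ (m - a) := by
    unfold Hn
    rw [if_neg (by omega), if_pos h2]
  rw [hr]
  have e : m + 1 - a = (m - a) + 1 := by omega
  by_cases h : m + 1 < 2 * a
  · have hl : Hn a (m+1) = 2 * (a + 1) * 3 ^ (m + 1 - a) := by
      unfold Hn
      rw [if_neg (by omega), if_pos h]
    rw [hl, e, pow_succ]; ring
  · have hl : Hn a (m+1) = 2 * ((a + 1) * 3 ^ a + (((m + 1 : ℕ) : ℤ) - 2 * a)) := by
      unfold Hn
      rw [if_neg (by omega), if_neg h]
    have e2 : ((m + 1 : ℕ) : ℤ) = 2 * a := by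
      have : m + 1 = 2 * a := by omega
      exact_mod_cast this
    have e3 : a = (m - a) + 1 := by omega
    have e4 : (3:ℤ) ^ a = 3 ^ (m - a) * 3 := by
      conv_lhs => rw [e3]
      rw [pow_succ]
    rw [hl, e2, e4]; ring

theorem Hn_big {a m : ℕ} (ha : 1 ≤ a) (h : 2 * a ≤ m) : 2 * (((a:ℤ) + 1) * 3 ^ a) ≤ Hn a m := by
  unfold Hn
  rw [if_neg (by omega), if_neg (by omega)]
  have : (2:ℤ) * a ≤ m := by exact_mod_cast h
  linarith

section
variable (a e : ℕ) (ha : 1 ≤ a) (he : e ≤ 2)

theorem fam_d (i : Fin (3 * a + 1 + e)) :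
    ((famData a e ha he).config.d i = 1 ↔ a ≤ i.val) ∧
    ((famData a e ha he).config.d i = -1 ↔ i.val < a) := by
  have hd : (famData a e ha he).config.d i = (((if i.val < a then -1 else 1 : ℤ)) : ℝ) := rfl
  rw [hd]
  by_cases h : i.val < a
  · rw [if_pos h]
    constructor
    · constructor
      · intro h'; norm_num at h'
      · intro h'; omega
    · constructor
      · intro _; exact h
      · intro _; norm_num
  · rw [if_neg h]
    constructor
    · constructor
      · intro _; omega
      · intro _; norm_num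
    · constructor
      · intro h'; norm_num at h'
      · intro h'; exact absurd h' h

theorem fam_h (i : Fin (3 * a + 1 + e)) :
    (famData a e ha he).config.h i = (Hn a i.val : ℝ) / ((32 * (a + 1) * 3 ^ a : ℤ) : ℝ) := rfl

theorem Cpos' : (0:ℝ) < ((32 * (a + 1) * 3 ^ a : ℤ) : ℝ) := by
  have : (0:ℤ) < 32 * (a + 1) * 3 ^ a := by positivity
  exact_mod_cast this

theorem fam_lt (i j : Fin (3 * a + 1 + e)) :
    (famData a e ha he).config.h i < (famData a e ha he).config.h j ↔ i.val < j.val := by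
  rw [fam_h, fam_h, div_lt_div_iff_of_pos_right (Cpos' a)]
  rw [← (Hn_strictMono ha).lt_iff_lt]
  exact Int.cast_lt

theorem fam_is : Fam (famData a e ha he).config a e
    (Finset.univ.filter (fun i => a ≤ i.val ∧ i.val < 2 * a))
    ⟨a, by omega⟩ := by
  have hC := Cpos' a
  have h5 : (1:ℤ) ≤ 3 ^ a := one_le_pow₀ (by norm_num)
  have h6 : (0:ℤ) ≤ a := by positivity
  have hP : (0:ℤ) < (a + 1) * 3 ^ a := by positivity
  have hP2 : (a:ℤ) + 1 ≤ (a + 1) * 3 ^ a := by nlinarith
  have hcL : ((famData a e ha he).config.dir (-1)).card = a := by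
    have e1 : (famData a e ha he).config.dir (-1)
        = (Finset.univ : Finset (Fin (3 * a + 1 + e))).filter (fun i => i.val < a) := by
      ext i
      rw [Config.mem_dir, (fam_d a e ha he i).2, Finset.mem_filter]
      simp
    rw [e1, card_val_lt (by omega)]
  have hmono : ∀ i j : Fin (3 * a + 1 + e), i.val ≤ j.val →
      (famData a e ha he).config.h i ≤ (famData a e ha he).config.h j := by
    intro i j hij
    by_contra h
    push Not at h
    have := (fam_lt a e ha he j i).1 h
    omega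
  refine ⟨?_, ha, ?_, ?_, ?_, hcL, ?_, ?_, ?_, ?_, ?_, ?_, ?_⟩
  · intro q
    rw [fam_h, abs_lt, lt_div_iff₀ hC, div_lt_iff₀ hC]
    have h1 := Hn_lt ha he q.isLt
    have h2 := Hn_gt a q.val ha
    constructor
    · have : -(32 * ((a:ℤ) + 1) * 3 ^ a) < 8 * Hn a q.val := by nlinarith
      have h3 : ((-(32 * ((a:ℤ) + 1) * 3 ^ a) : ℤ) : ℝ) < ((8 * Hn a q.val : ℤ) : ℝ) := by
        exact_mod_cast this
      push_cast at h3 ⊢
      linarith
    · have : 8 * Hn a q.val < 32 * ((a:ℤ) + 1) * 3 ^ a := by nlinarith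
      have h3 : ((8 * Hn a q.val : ℤ) : ℝ) < ((32 * ((a:ℤ) + 1) * 3 ^ a : ℤ) : ℝ) := by
        exact_mod_cast this
      push_cast at h3 ⊢
      linarith
  · intro i hi
    rw [fam_h]
    apply div_pos _ hC
    have := Hn_pos ha ((fam_d a e ha he i).1.1 hi)
    have h2 : (0:ℤ) < Hn a i.val := by linarith
    exact_mod_cast h2
  · intro i hi
    rw [fam_h]
    apply div_neg_of_neg_of_pos _ hC
    exact_mod_cast Hn_neg ((fam_d a e ha he i).2.1 hi)
  · have := (famData a e ha he).config.card_dir
    omega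
  · intro i hi
    exact (fam_d a e ha he i).1.2 (Finset.mem_filter.1 hi).2.1
  · have e1 : (Finset.univ : Finset (Fin (3 * a + 1 + e))).filter (fun i => i.val < 2 * a)
        = (Finset.univ.filter (fun i => i.val < a)) ∪
          (Finset.univ.filter (fun i => a ≤ i.val ∧ i.val < 2 * a)) := by
      ext i
      simp only [Finset.mem_filter, Finset.mem_union, Finset.mem_univ, true_and]
      omega
    have e2 := card_val_lt (n := 3 * a + 1 + e) (a := 2 * a) (by omega)
    rw [e1, Finset.card_union_of_disjoint, card_val_lt (by omega)] at e2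
    · omega
    · rw [Finset.disjoint_left]
      intro i h1 h2
      simp only [Finset.mem_filter, Finset.mem_univ, true_and] at h1 h2
      omega
  · intro i hi j hj hjn
    rw [fam_lt]
    simp only [Finset.mem_filter, Finset.mem_univ, true_and] at hi hjn
    have := (fam_d a e ha he j).1.1 hj
    omega
  · exact (fam_d a e ha he _).1.2 le_rfl
  · intro q hq
    exact hmono _ _ ((fam_d a e ha he q).1.1 hq)
  · intro i hi j l hj hl hij
    simp only [Finset.mem_filter, Finset.mem_univ, true_and] at hi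
    rw [fam_lt] at hij
    rw [fam_h, fam_h, fam_h]
    have h1 := Hn_succ hi.1 hi.2
    have h2 : Hn a (i.val + 1) ≤ Hn a j.val := (Hn_strictMono ha).monotone hij
    have h3 := Hn_gt a l.val ha
    have h4 := Hn_pos ha hi.1
    have h7 : 2 * Hn a i.val - Hn a l.val < Hn a j.val := by linarith
    have h8 : (2 * (Hn a i.val : ℝ) - Hn a l.val) < Hn a j.val := by exact_mod_cast h7
    have e1 : 2 * ((Hn a i.val : ℝ) / ((32 * (a + 1) * 3 ^ a : ℤ) : ℝ))
        - (Hn a l.val : ℝ) / ((32 * (a + 1) * 3 ^ a : ℤ) : ℝ)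
        = (2 * (Hn a i.val : ℝ) - Hn a l.val) / ((32 * (a + 1) * 3 ^ a : ℤ) : ℝ) := by ring
    rw [e1]
    exact (div_lt_div_iff_of_pos_right hC).2 h8
  · intro i hi hn j hj
    rw [fam_h, fam_h]
    have hi' := (fam_d a e ha he i).1.1 hi
    simp only [Finset.mem_filter, Finset.mem_univ, true_and] at hn
    have h1 := Hn_big ha (m := i.val) (by omega)
    have h2 := Hn_lt ha he j.isLt
    have h7 : Hn a j.val < 2 * Hn a i.val := by nlinarith
    have h8 : (Hn a j.val : ℝ) < 2 * (Hn a i.val : ℝ) := by exact_mod_cast h7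
    have e1 : 2 * ((Hn a i.val : ℝ) / ((32 * (a + 1) * 3 ^ a : ℤ) : ℝ))
        = (2 * (Hn a i.val : ℝ)) / ((32 * (a + 1) * 3 ^ a : ℤ) : ℝ) := by ring
    rw [e1]
    exact (div_lt_div_iff_of_pos_right hC).2 h8

end

/-- trivial integer data for small numbers of robots -/
def smallData (n : ℕ) : IntData n where
  C := 2 * n + 2
  H := fun i => 2 * i.val
  D := fun _ => 1
  Cpos := by positivity
  Ceven := ⟨n + 1, by ring⟩
  Heven := fun i => ⟨i.val, rfl⟩
  dist := by
    intro i j hij ⟨m, hm⟩
    have h1 := i.isLt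
    have h2 := j.isLt
    have hne : (i.val : ℤ) ≠ j.val := by
      intro h
      exact hij (Fin.ext (by exact_mod_cast h))
    have h1' : (i.val : ℤ) < n := by exact_mod_cast h1
    have h2' : (j.val : ℤ) < n := by exact_mod_cast h2
    have h3 : (0:ℤ) ≤ i.val := by positivity
    have h4 : (0:ℤ) ≤ j.val := by positivity
    have hm1 : m < 1 := by
      by_contra h
      push Not at h
      nlinarith
    have hm2 : -1 < m := by
      by_contra h
      push Not at h
      nlinarith
    have : m = 0 := by omega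
    rw [this] at hm
    apply hne; linarith
  unit := fun _ => Or.inl rfl

/-- For every `n` there is a configuration of `n` robots which has a history, and every history of
which has exactly `2⌊(n-1)/3⌋` survivors. -/
theorem exists_config (n : ℕ) : ∃ c : Config n, Nonempty (Run c) ∧
    ∀ r : Run c, r.survivors.card = 2 * ((n - 1) / 3) := by
  by_cases hn : n ≤ 3
  · refine ⟨(smallData n).config, ⟨(smallData n).run⟩, fun r => ?_⟩
    have := r.bound'
    omega
  · obtain ⟨a, e, ha, he, rfl⟩ : ∃ a e : ℕ, 1 ≤ a ∧ e ≤ 2 ∧ n = 3 * a + 1 + e :=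
      ⟨(n - 1) / 3, (n - 1) % 3, by omega, by omega, by omega⟩
    refine ⟨(famData a e ha he).config, ⟨(famData a e ha he).run⟩, fun r => ?_⟩
    have h1 := r.bound'
    have h2 := r.fam_survivors (fam_is a e ha he)
    omega

end Pool.Agent.X13.Rob
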