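import Pool.Agent.X13.Rob.Bound

namespace Pool.Agent.X13.Rob

variable {n : ℕ} {c : Config n} (r : Run c)

namespace Run

/-- phase of the particle carried by robot `i` -/
noncomputable def w (k : ℕ) (i : Fin n) : ℝ := r.x k i - r.v k i * r.t k

theorem label (k : ℕ) : ∀ i ∈ r.A k, ∃ q, c.d q = r.v k i ∧ Same (r.w k i) (c.h q) := by
  induction k with
  | zero =>
    intro i _
    refine ⟨i, (r.v0 i).symm, ?_⟩
    rw [w, r.x0, r.t0]; simpa using Same.refl _
  | succ k ih =>
    intro i hi
    obtain ⟨j, hj, hvj, hs⟩ := r.pred k hi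
    have hj' := r.mem_of_mem_succ hj
    obtain ⟨q, hq, hS⟩ := ih j hj'
    refine ⟨q, by rw [← hvj]; exact hq, ?_⟩
    have hm := r.move k j hj'
    obtain ⟨a, ha⟩ := hs
    obtain ⟨b, hb⟩ := hS
    refine ⟨b - a, ?_⟩
    rw [w] at hb ⊢
    rw [← hvj]
    push_cast; linarith

theorem dist_le (k : ℕ) : ∀ i ∈ r.A k, |r.x k i - c.h i| ≤ r.t k := by
  induction k with
  | zero => intro i _; rw [r.x0, r.t0]; simp
  | succ k ih =>
    intro i hi
    have hi' := r.mem_of_mem_succ hi
    have h1 := ih i hi'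
    have h2 := r.tlt k
    rw [r.move k i hi']
    rw [abs_le] at h1 ⊢
    rcases r.vel k i hi' with h | h <;> rw [h] <;> constructor <;> linarith [h1.1, h1.2]

/-- the predecessor function as a map `σ` on `A (k+1)` -/
theorem exists_perm (k : ℕ) : ∃ σ : Fin n → Fin n,
    (∀ i ∈ r.A (k+1), σ i ∈ r.A (k+1) ∧ r.v k (σ i) = r.v (k+1) i ∧
      Same (r.x (k+1) (σ i)) (r.x (k+1) i)) ∧
    Set.InjOn σ (r.A (k+1)) ∧
    (∀ f : Fin n → ℝ, ∑ i ∈ r.A (k+1), f (σ i) = ∑ i ∈ r.A (k+1), f i) := by
  classical
  have h : ∀ i : Fin n, ∃ j : Fin n, i ∈ r.A (k+1) →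
      (j ∈ r.A (k+1) ∧ r.v k j = r.v (k+1) i ∧ Same (r.x (k+1) j) (r.x (k+1) i)) := by
    intro i
    by_cases hi : i ∈ r.A (k+1)
    · obtain ⟨j, hj, hv, hs⟩ := r.pred k hi
      exact ⟨j, fun _ => ⟨hj, hv, hs⟩⟩
    · exact ⟨i, fun h => absurd h hi⟩
  choose σ hσ using h
  have hinj : Set.InjOn σ (r.A (k+1)) := by
    intro i hi j hj hij
    by_contra hne
    obtain ⟨_, h2, h3⟩ := hσ i hi
    obtain ⟨_, h2', h3'⟩ := hσ j hj
    rw [hij] at h3 h2
    exact r.opp hi hj hne (h3.symm.trans h3') (h2.symm.trans h2')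
  refine ⟨σ, fun i hi => hσ i hi, hinj, ?_⟩
  intro f
  have himg : (r.A (k+1)).image σ = r.A (k+1) := by
    apply Finset.eq_of_subset_of_card_le
    · intro j hj
      obtain ⟨i, hi, rfl⟩ := Finset.mem_image.1 hj
      exact (hσ i hi).1
    · rw [Finset.card_image_of_injOn hinj]
  calc ∑ i ∈ r.A (k+1), f (σ i) = ∑ j ∈ (r.A (k+1)).image σ, f j := by
        rw [Finset.sum_image hinj]
    _ = _ := by rw [himg]

theorem round_add_int' (x : ℝ) (m : ℤ) : (round (x + m) : ℝ) = round x + m := by
  rw [round_add_intCast]; push_cast; ring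

theorem Q_step (k : ℕ) : ∑ i ∈ r.A (k+1), (round (r.w (k+1) i) : ℝ)
    = ∑ i ∈ r.A (k+1), (round (r.w k i) : ℝ) := by
  obtain ⟨σ, h1, h2, h3⟩ := r.exists_perm k
  have e : ∀ i ∈ r.A (k+1), (round (r.w (k+1) i) : ℝ)
      = round (r.w k (σ i)) + (r.x (k+1) i - r.x (k+1) (σ i)) := by
    intro i hi
    obtain ⟨a1, a2, m, hm⟩ := h1 i hi
    have hmv := r.move k (σ i) (r.mem_of_mem_succ a1)
    have e1 : r.w (k+1) i = r.w k (σ i) + (-m : ℤ) := by
      rw [w, w, ← a2]; push_cast; linarith
    rw [e1, round_add_int']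
    push_cast; linarith
  rw [Finset.sum_congr rfl e, Finset.sum_add_distrib, Finset.sum_sub_distrib,
    h3 (fun i => (round (r.w k i) : ℝ)), h3 (fun i => r.x (k+1) i)]
  ring

theorem V_step (f : ℝ → ℝ) (k : ℕ) : ∑ i ∈ r.A (k+1), f (r.v (k+1) i)
    = ∑ i ∈ r.A (k+1), f (r.v k i) := by
  obtain ⟨σ, h1, h2, h3⟩ := r.exists_perm k
  rw [Finset.sum_congr rfl (fun i hi => by rw [← (h1 i hi).2.1] :
    ∀ i ∈ r.A (k+1), f (r.v (k+1) i) = f (r.v k (σ i)))]
  exact h3 (fun i => f (r.v k i))

/-- weak order at the next event time for all robots alive before -/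
theorem ordw (k : ℕ) : ∀ i ∈ r.A k, ∀ j ∈ r.A k, ∀ m : ℤ, c.h i + m < c.h j →
    r.x (k+1) i + m ≤ r.x (k+1) j := by
  intro i hi' j hj' m hm
  by_cases hij : i = j
  · subst hij; linarith
  have hΔ := r.tlt k
  have h1 := r.move k i hi'
  have h2 := r.move k j hj'
  have key := r.ord k i hi' j hj' m hm
  rcases r.vel k i hi' with vi | vi <;> rcases r.vel k j hj' with vj | vj <;>
    rw [vi] at h1 <;> rw [vj] at h2
  · rcases key with h | ⟨h, _, _⟩ <;> linarith
  · rcases key with h | ⟨_, h, _⟩
    swap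
    · rw [vi] at h; norm_num at h
    set g := r.x k j - (r.x k i + m) with hg
    have hgpos : 0 < g := by linarith
    have hle : r.t (k+1) - r.t k ≤ g / 2 := by
      by_contra hlt
      push Not at hlt
      refine r.noMeet k (r.t k + g/2) (by linarith) (by linarith) i hi' j hj' hij ⟨-m, ?_⟩
      rw [vi, vj]; push_cast; linarith
    linarith
  · rcases key with h | ⟨h, _, _⟩ <;> linarith
  · rcases key with h | ⟨h, _, _⟩ <;> linarith

/-- how a robot which dies at event `k+1` arrives at its home -/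
theorem death_case (k : ℕ) {i : Fin n} (hi : i ∈ r.A k) (hdead : i ∉ r.A (k+1)) :
    (r.x (k+1) i = c.h i ∧ r.v k i = - c.d i) ∨
    (r.x (k+1) i = c.h i + c.d i ∧ r.v k i = c.d i) := by
  have hS : Same (r.x (k+1) i) (c.h i) := by
    by_contra h
    exact hdead ((r.death k i).2 ⟨hi, h⟩)
  have hm := r.move k i hi
  have hΔ := r.tlt k
  obtain ⟨z, hz⟩ := hS
  have hno : ∀ s, 0 < s → s < r.t (k+1) - r.t k → ¬ Same (r.x k i + r.v k i * s) (c.h i) := by
    intro s h1 h2
    have := r.noHome k (r.t k + s) (by linarith) (by linarith) i hi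
    simpa using this
  rcases Nat.eq_zero_or_pos k with rfl | hk
  · -- start at home
    rw [r.x0, r.v0, r.t0] at hm
    right
    have ht : r.t (0+1) ≤ 1 := by
      by_contra h
      push Not at h
      refine hno 1 one_pos (by rw [r.t0]; linarith) ?_
      rw [r.x0, r.v0]
      rcases c.unit i with h | h
      · exact ⟨1, by rw [h]; push_cast; ring⟩
      · exact ⟨-1, by rw [h]; push_cast; ring⟩
    rw [r.t0] at hΔ
    rw [r.v0]
    rcases c.unit i with h | h
    · rw [h] at hm
      have e : (z:ℝ) = r.t (0+1) := by linarith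
      have h1 : (0:ℝ) < z := by linarith
      have h2 : (z:ℝ) ≤ 1 := by linarith
      have h1' : (0:ℤ) < z := by exact_mod_cast h1
      have h2' : z ≤ 1 := by exact_mod_cast h2
      have : z = 1 := by omega
      rw [this] at hz
      exact ⟨by rw [h]; push_cast at hz; linarith, rfl⟩
    · rw [h] at hm
      have e : (z:ℝ) = - r.t (0+1) := by linarith
      have h1 : (z:ℝ) < 0 := by linarith
      have h2 : (-1:ℝ) ≤ z := by linarith
      have h1' : z < (0:ℤ) := by exact_mod_cast h1
      have h2' : -1 ≤ z := by exact_mod_cast h2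
      have : z = -1 := by omega
      rw [this] at hz
      exact ⟨by rw [h]; push_cast at hz; linarith, rfl⟩
  · -- inside
    have hbelow : ∀ (lo : ℝ), lo < r.x k i → r.x (k+1) i < lo → Same lo (c.h i) → False := by
      intro lo h1 h2 h3
      rcases r.vel k i hi with hv | hv
      · rw [hv] at hm; linarith
      · refine hno (r.x k i - lo) (by linarith) (by rw [hv] at hm; linarith) ?_
        rw [hv]
        have e : r.x k i + -1 * (r.x k i - lo) = lo := by ring
        rw [e]; exact h3
    have habove : ∀ (hi' : ℝ), r.x k i < hi' → hi' < r.x (k+1) i → Same hi' (c.h i) → False := by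
      intro up h1 h2 h3
      rcases r.vel k i hi with hv | hv
      · refine hno (up - r.x k i) (by linarith) (by rw [hv] at hm; linarith) ?_
        rw [hv]
        have e : r.x k i + 1 * (up - r.x k i) = up := by ring
        rw [e]; exact h3
      · rw [hv] at hm; linarith
    rcases c.unit i with h | h
    · have hs := r.sideR hk hi h
      have h0 : c.h i ≤ r.x (k+1) i := by
        by_contra hlt
        push Not at hlt
        exact hbelow (c.h i) hs.1 hlt (Same.refl _)
      have h1 : r.x (k+1) i ≤ c.h i + 1 := by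
        by_contra hlt
        push Not at hlt
        exact habove (c.h i + 1) hs.2 hlt ⟨1, by push_cast; ring⟩
      have z0 : (0:ℝ) ≤ z := by linarith
      have z1 : (z:ℝ) ≤ 1 := by linarith
      have z0' : (0:ℤ) ≤ z := by exact_mod_cast z0
      have z1' : z ≤ 1 := by exact_mod_cast z1
      rcases (by omega : z = 0 ∨ z = 1) with hz0 | hz0
      · left
        rw [hz0] at hz; push_cast at hz
        refine ⟨by linarith, ?_⟩
        rcases r.vel k i hi with hv | hv
        · rw [hv] at hm; linarith [hs.1]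
        · rw [hv, h]
      · right
        rw [hz0] at hz; push_cast at hz
        refine ⟨by rw [h]; linarith, ?_⟩
        rcases r.vel k i hi with hv | hv
        · rw [hv, h]
        · rw [hv] at hm; linarith [hs.2]
    · have hs := r.sideL hk hi h
      have h0 : c.h i - 1 ≤ r.x (k+1) i := by
        by_contra hlt
        push Not at hlt
        exact hbelow (c.h i - 1) hs.1 hlt ⟨-1, by push_cast; ring⟩
      have h1 : r.x (k+1) i ≤ c.h i := by
        by_contra hlt
        push Not at hlt
        exact habove (c.h i) hs.2 hlt (Same.refl _)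
      have z0 : (-1:ℝ) ≤ z := by linarith
      have z1 : (z:ℝ) ≤ 0 := by linarith
      have z0' : (-1:ℤ) ≤ z := by exact_mod_cast z0
      have z1' : z ≤ 0 := by exact_mod_cast z1
      rcases (by omega : z = 0 ∨ z = -1) with hz0 | hz0
      · left
        rw [hz0] at hz; push_cast at hz
        refine ⟨by linarith, ?_⟩
        rcases r.vel k i hi with hv | hv
        · rw [hv, h]; norm_num
        · rw [hv] at hm; linarith [hs.2]
      · right
        rw [hz0] at hz; push_cast at hz
        refine ⟨by rw [h]; linarith, ?_⟩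
        rcases r.vel k i hi with hv | hv
        · rw [hv] at hm; linarith [hs.1]
        · rw [hv, h]

end Run
end Pool.Agent.X13.Rob
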