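import Pool.Agent.X13.Rob.Low1

namespace Pool.Agent.X13.Rob

variable {n : ℕ} {c : Config n} (r : Run c)

/-- all homes are near `0` -/
def Near (c : Config n) : Prop := ∀ q, |c.h q| < 1 / 8

namespace Run

theorem label' (hN : Near c) (k : ℕ) {i : Fin n} (hi : i ∈ r.A k) :
    ∃ q, c.d q = r.v k i ∧ r.w k i = c.h q + (round (r.w k i) : ℝ) := by
  obtain ⟨q, hq, m, hm⟩ := r.label k i hi
  refine ⟨q, hq, ?_⟩
  have h1 := hN q
  have : round (r.w k i) = m := by
    rw [hm, round_add_intCast]
    have : round (c.h q) = 0 := by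
      rw [abs_lt] at h1
      rw [round_eq_zero_iff]
      constructor <;> linarith [h1.1, h1.2]
    rw [this]; ring
  rw [this]; exact hm

/-- local position at the next event, in the window around the integer time `m` -/
noncomputable def y (k : ℕ) (m : ℤ) (i : Fin n) : ℝ :=
  r.x (k+1) i - ((round (r.w k i) : ℝ) + r.v k i * m)

theorem y_eq (hN : Near c) (k : ℕ) (m : ℤ) {i : Fin n} (hi : i ∈ r.A k) :
    ∃ q, c.d q = r.v k i ∧ r.w k i = c.h q + (round (r.w k i) : ℝ) ∧
      r.y k m i = c.h q + r.v k i * (r.t (k+1) - m) := by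
  obtain ⟨q, h1, h2⟩ := r.label' hN k hi
  refine ⟨q, h1, h2, ?_⟩
  have hm := r.move k i hi
  rw [y, hm]
  have : r.x k i = r.w k i + r.v k i * r.t k := by rw [w]; ring
  rw [this]
  linarith

theorem y_lt (hN : Near c) (k : ℕ) (m : ℤ) (hm : |r.t (k+1) - m| < 1/4) {i : Fin n}
    (hi : i ∈ r.A k) : |r.y k m i| < 3/8 := by
  obtain ⟨q, _, _, h⟩ := r.y_eq hN k m hi
  have h1 := hN q
  rw [h]
  rw [abs_lt] at *
  rcases r.vel k i hi with hv | hv <;> rw [hv] <;> constructor <;> linarith [h1.1, h1.2, hm.1, hm.2]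

theorem term_ineq (hN : Near c) (k : ℕ) {ρ : Fin n} (hρ : ρ ∈ r.A k) (z : ℤ)
    (hz : r.x (k+1) ρ = c.h ρ + z) (m : ℤ) (hm : |r.t (k+1) - m| < 1/4) {i : Fin n}
    (hi : i ∈ r.A k) :
    ((round (r.w k i) : ℝ) + r.v k i * m
      ≤ z + (if i ≠ ρ ∧ r.y k m i ≤ c.h ρ then (1:ℝ) else 0) - (if c.h i < c.h ρ then (1:ℝ) else 0)) ∧
    (z + (if r.y k m i < c.h ρ then (1:ℝ) else 0) - (if c.h i < c.h ρ then (1:ℝ) else 0)
      ≤ (round (r.w k i) : ℝ) + r.v k i * m) := by
  have hy := r.y_lt hN k m hm hi
  have hρ8 := hN ρ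
  have hi8 := hN i
  obtain ⟨U, hU⟩ : ∃ U : ℤ, (U : ℝ) = (round (r.w k i) : ℝ) + r.v k i * m := by
    rcases r.vel k i hi with hv | hv
    · exact ⟨round (r.w k i) + m, by rw [hv]; push_cast; ring⟩
    · exact ⟨round (r.w k i) - m, by rw [hv]; push_cast; ring⟩
  have hyX : r.y k m i = r.x (k+1) i - U := by rw [y, hU]
  rw [← hU]
  rw [abs_lt] at hy hρ8 hi8
  by_cases hiρ : i = ρ
  · subst hiρ
    have e : r.y k m i = c.h i + ((z - U : ℤ) : ℝ) := by rw [hyX, hz]; push_cast; ring
    have h0 : z - U = 0 := by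
      have l1 : ((z - U : ℤ) : ℝ) < 1 := by linarith [hy.2, hρ8.1]
      have l2 : (-1 : ℝ) < ((z - U : ℤ) : ℝ) := by linarith [hy.1, hρ8.2]
      have l1' : (z - U) < 1 := by exact_mod_cast l1
      have l2' : -1 < (z - U) := by exact_mod_cast l2
      omega
    have hzU : (z : ℝ) = U := by
      have : z = U := by omega
      exact_mod_cast this
    have hye : r.y k m i = c.h i := by rw [e, h0]; simp
    simp [hye, hzU]
  · rcases lt_or_gt_of_ne (c.ne_of_ne hiρ 0) with h | h
    · -- h i < h ρ
      have h' : c.h i < c.h ρ := by simpa using h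
      have o1 := r.ordw k i hi ρ hρ 0 h
      have o2 := r.ordw k ρ hρ i hi (-1) (by push_cast; linarith [hρ8.2, hi8.1])
      push_cast at o1 o2
      rw [hz] at o1 o2
      have b1 : r.y k m i + U ≤ c.h ρ + z := by rw [hyX]; linarith
      have b2 : c.h ρ + z - 1 ≤ r.y k m i + U := by rw [hyX]; linarith
      rw [if_pos h']
      constructor
      · split_ifs with hc
        · have l : (U : ℝ) < z + 1 := by linarith
          have l' : U < z + 1 := by exact_mod_cast l
          have l2 : U ≤ z := by omega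
          have l3 : (U : ℝ) ≤ z := by exact_mod_cast l2
          linarith
        · have hlt : c.h ρ < r.y k m i := by
            by_contra hh; push Not at hh; exact hc ⟨hiρ, hh⟩
          have l : (U : ℝ) < z := by linarith
          have l' : U < z := by exact_mod_cast l
          have l2 : U ≤ z - 1 := by omega
          have l3 : (U : ℝ) ≤ ((z - 1 : ℤ) : ℝ) := by exact_mod_cast l2
          push_cast at l3; linarith
      · split_ifs with hc
        · have l : (z : ℝ) - 1 < U := by linarith
          have l' : z - 1 < U := by exact_mod_cast l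
          have l2 : z ≤ U := by omega
          have l3 : (z : ℝ) ≤ U := by exact_mod_cast l2
          linarith
        · have l : (z : ℝ) - 2 < U := by linarith
          have l' : z - 2 < U := by exact_mod_cast l
          have l2 : z - 1 ≤ U := by omega
          have l3 : ((z - 1 : ℤ) : ℝ) ≤ U := by exact_mod_cast l2
          push_cast at l3; linarith
    · have h' : c.h ρ < c.h i := by simpa using h
      have o1 := r.ordw k ρ hρ i hi 0 (by simpa using h')
      have o2 := r.ordw k i hi ρ hρ (-1) (by push_cast; linarith [hρ8.1, hi8.2])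
      push_cast at o1 o2
      rw [hz] at o1 o2
      have b1 : c.h ρ + z ≤ r.y k m i + U := by rw [hyX]; linarith
      have b2 : r.y k m i + U ≤ c.h ρ + z + 1 := by rw [hyX]; linarith
      rw [if_neg (not_lt.2 h'.le)]
      constructor
      · split_ifs with hc
        · have l : (U : ℝ) < z + 2 := by linarith
          have l' : U < z + 2 := by exact_mod_cast l
          have l2 : U ≤ z + 1 := by omega
          have l3 : (U : ℝ) ≤ ((z + 1 : ℤ) : ℝ) := by exact_mod_cast l2
          push_cast at l3; linarith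
        · have hlt : c.h ρ < r.y k m i := by
            by_contra hh; push Not at hh; exact hc ⟨hiρ, hh⟩
          have l : (U : ℝ) < z + 1 := by linarith
          have l' : U < z + 1 := by exact_mod_cast l
          have l2 : U ≤ z := by omega
          have l3 : (U : ℝ) ≤ z := by exact_mod_cast l2
          linarith
      · split_ifs with hc
        · have l : (z : ℝ) < U := by linarith
          have l' : z < U := by exact_mod_cast l
          have l2 : z + 1 ≤ U := by omega
          have l3 : ((z + 1 : ℤ) : ℝ) ≤ U := by exact_mod_cast l2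
          push_cast at l3; linarith
        · have l : (z : ℝ) - 1 < U := by linarith
          have l' : z - 1 < U := by exact_mod_cast l
          have l2 : z ≤ U := by omega
          have l3 : (z : ℝ) ≤ U := by exact_mod_cast l2
          linarith

open Classical in
theorem count_ineq (hN : Near c) (k : ℕ) {ρ : Fin n} (hρ : ρ ∈ r.A k) (z : ℤ)
    (hz : r.x (k+1) ρ = c.h ρ + z) (m : ℤ) (hm : |r.t (k+1) - m| < 1/4) :
    (∑ i ∈ r.A k, ((round (r.w k i) : ℝ) + r.v k i * m)
      ≤ (r.A k).card * z + ((r.A k).filter (fun i => i ≠ ρ ∧ r.y k m i ≤ c.h ρ)).card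
        - ((r.A k).filter (fun i => c.h i < c.h ρ)).card) ∧
    ((r.A k).card * z + ((r.A k).filter (fun i => r.y k m i < c.h ρ)).card
        - ((r.A k).filter (fun i => c.h i < c.h ρ)).card
      ≤ ∑ i ∈ r.A k, ((round (r.w k i) : ℝ) + r.v k i * m)) := by
  constructor
  · have h1 := Finset.sum_le_sum (fun i hi => (r.term_ineq hN k hρ z hz m hm hi).1)
    rw [Finset.sum_sub_distrib, Finset.sum_add_distrib (s := r.A k) (f := fun _ => (z:ℝ)),
      Finset.sum_boole, Finset.sum_boole] at h1
    simpa using h1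
  · have h1 := Finset.sum_le_sum (fun i hi => (r.term_ineq hN k hρ z hz m hm hi).2)
    rw [Finset.sum_sub_distrib, Finset.sum_add_distrib (s := r.A k) (f := fun _ => (z:ℝ)),
      Finset.sum_boole, Finset.sum_boole] at h1
    simpa using h1

/-- label injectivity just before event `k+1` -/
theorem label_inj (k : ℕ) {i j : Fin n} (hi : i ∈ r.A k) (hj : j ∈ r.A k) (hv : r.v k i = r.v k j)
    (hs : Same (r.w k i) (r.w k j)) : i = j := by
  by_contra hne
  apply r.opp hi hj hne _ hv
  obtain ⟨m, hm⟩ := hs
  refine ⟨m, ?_⟩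
  rw [w, w, hv] at hm
  linarith

end Run
end Pool.Agent.X13.Rob
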