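import Pool.Agent.X13.Rob.Low2

namespace Pool.Agent.X13.Rob

open Classical

variable {n : ℕ} {c : Config n} (r : Run c)

/-- The family of configurations used for the lower bound. -/
structure Fam (c : Config n) (a e : ℕ) (Lo : Finset (Fin n)) (q0 : Fin n) : Prop where
  near : Near c
  ha : 1 ≤ a
  posR : ∀ i, c.d i = 1 → 0 < c.h i
  negL : ∀ i, c.d i = -1 → c.h i < 0
  cR : (c.dir 1).card = 2 * a + 1 + e
  cL : (c.dir (-1)).card = a
  loR : ∀ i ∈ Lo, c.d i = 1
  loC : Lo.card = a
  loB : ∀ i ∈ Lo, ∀ j, c.d j = 1 → j ∉ Lo → c.h i < c.h j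
  q0R : c.d q0 = 1
  q0m : ∀ q, c.d q = 1 → c.h q0 ≤ c.h q
  condA : ∀ i ∈ Lo, ∀ j l, c.d j = 1 → c.d l = -1 → c.h i < c.h j → 2 * c.h i - c.h l < c.h j
  condB : ∀ i, c.d i = 1 → i ∉ Lo → ∀ j, c.d j = 1 → c.h j < 2 * c.h i

namespace Run

/-- number of living robots of type `R` -/
noncomputable def RA (k : ℕ) : ℕ := ((r.A k).filter (fun i => c.d i = 1)).card
/-- number of living robots of type `L` -/
noncomputable def LA (k : ℕ) : ℕ := ((r.A k).filter (fun i => c.d i = -1)).card

theorem RA_add_LA (k : ℕ) : r.RA k + r.LA k = (r.A k).card := by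
  have h := Finset.card_filter_add_card_filter_not (s := r.A k) (p := fun i => c.d i = 1)
  rw [RA, LA, ← h]
  congr 1
  congr 1
  apply Finset.filter_congr
  intro i _
  constructor
  · intro h h'; rw [h] at h'; norm_num at h'
  · intro h; exact (c.unit i).resolve_left h

/-- the particle started from `q0` is still there (moving right) -/
def HasQ0 (q0 : Fin n) (k : ℕ) : Prop := ∃ i ∈ r.A k, r.v k i = 1 ∧ Same (r.w k i) (c.h q0)

structure Inv (a : ℕ) (Lo : Finset (Fin n)) (q0 : Fin n) (k : ℕ) : Prop where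
  i1 : ∀ i ∈ Lo, i ∈ r.A k
  i2 : (r.cls (-1) k).card = a
  i3 : ∑ i ∈ r.A k, ((round (r.w k i) : ℝ) + r.v k i) = r.RA k - a
  i4 : 2 * a ≤ r.RA k
  i6 : r.RA k = 2 * a → ¬ r.HasQ0 q0 k

theorem card_low {a e : ℕ} {Lo : Finset (Fin n)} {q0 : Fin n} (F : Fam c a e Lo q0)
    {ρ : Fin n} (hρ : ρ ∈ Lo) :
    ((c.dir 1).filter (fun i => c.h i < c.h ρ)).card + 1 ≤ a := by
  have hsub : (c.dir 1).filter (fun i => c.h i < c.h ρ) ⊆ Lo.erase ρ := by
    intro i hi
    rw [Finset.mem_filter, c.mem_dir] at hi
    refine Finset.mem_erase.2 ⟨?_, ?_⟩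
    · rintro rfl; exact lt_irrefl _ hi.2
    · by_contra hne
      have := F.loB ρ hρ i hi.1 hne
      linarith [hi.2]
  have h1 := Finset.card_le_card hsub
  rw [Finset.card_erase_of_mem hρ, F.loC] at h1
  have := F.ha
  omega

/-- count of living homes to the left of the home of an `R`-robot -/
theorem card_left {a e : ℕ} {Lo : Finset (Fin n)} {q0 : Fin n} (F : Fam c a e Lo q0) (k : ℕ)
    {ρ : Fin n} (hd : c.d ρ = 1) :
    ((r.A k).filter (fun i => c.h i < c.h ρ)).card
      = r.LA k + ((r.A k).filter (fun i => c.d i = 1 ∧ c.h i < c.h ρ)).card := by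
  rw [LA, ← Finset.card_union_of_disjoint]
  · congr 1
    ext i
    simp only [Finset.mem_filter, Finset.mem_union]
    constructor
    · rintro ⟨h1, h2⟩
      rcases c.unit i with h | h
      · right; exact ⟨h1, h, h2⟩
      · left; exact ⟨h1, h⟩
    · rintro (⟨h1, h2⟩ | ⟨h1, h2, h3⟩)
      · exact ⟨h1, (F.negL i h2).trans (F.posR ρ hd)⟩
      · exact ⟨h1, h3⟩
  · rw [Finset.disjoint_left]
    intro i h1 h2
    rw [Finset.mem_filter] at h1 h2
    have := h1.2
    rw [h2.2.1] at this; norm_num at this

/-- injection of particles moving right into home bases -/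
theorem card_labels {a e : ℕ} {Lo : Finset (Fin n)} {q0 : Fin n} (F : Fam c a e Lo q0) (k : ℕ)
    (P : Fin n → Prop) (T : Finset (Fin n))
    (h : ∀ i ∈ r.A k, r.v k i = 1 → P i → ∀ q, c.d q = 1 →
      r.w k i = c.h q + (round (r.w k i) : ℝ) → q ∈ T) :
    ((r.A k).filter (fun i => r.v k i = 1 ∧ P i)).card ≤ T.card := by
  have hc : ∀ i : Fin n, ∃ q : Fin n, i ∈ r.A k →
      (c.d q = r.v k i ∧ r.w k i = c.h q + (round (r.w k i) : ℝ)) := by
    intro i
    by_cases hi : i ∈ r.A k
    · obtain ⟨q, hq⟩ := r.label' F.near k hi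
      exact ⟨q, fun _ => hq⟩
    · exact ⟨i, fun h => absurd h hi⟩
  choose f hf using hc
  refine Finset.card_le_card_of_injOn f ?_ ?_
  · intro i hi
    have hi' := Finset.mem_filter.1 (Finset.mem_coe.1 hi)
    obtain ⟨b1, b2⟩ := hf i hi'.1
    exact h i hi'.1 hi'.2.1 hi'.2.2 (f i) (by rw [b1]; exact hi'.2.1) b2
  · intro i hi j hj hij
    have hi' := Finset.mem_filter.1 (Finset.mem_coe.1 hi)
    have hj' := Finset.mem_filter.1 (Finset.mem_coe.1 hj)
    obtain ⟨b1, b2⟩ := hf i hi'.1
    obtain ⟨b1', b2'⟩ := hf j hj'.1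
    apply r.label_inj k hi'.1 hj'.1 (hi'.2.1.trans hj'.2.1.symm)
    refine ⟨round (r.w k i) - round (r.w k j), ?_⟩
    push_cast
    rw [hij] at b2
    linarith

/-- Analysis of a death. -/
theorem death_analysis {a e : ℕ} {Lo : Finset (Fin n)} {q0 : Fin n} (F : Fam c a e Lo q0) (k : ℕ)
    (I : r.Inv a Lo q0 k) {ρ : Fin n} (hρ : ρ ∈ r.A k) (hdead : ρ ∉ r.A (k+1)) (m : ℤ)
    (hm : |r.t (k+1) - m| < 1/4) (hy : r.y k m ρ = c.h ρ)
    (hO : ∑ i ∈ r.A k, ((round (r.w k i) : ℝ) + r.v k i * m) = r.RA k - a) :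
    (c.d ρ = -1 ∧ r.v k ρ = 1 ∧ r.x (k+1) ρ = c.h ρ) ∨
    (c.d ρ = 1 ∧ r.v k ρ = 1 ∧ r.x (k+1) ρ = c.h ρ + 1 ∧ ρ ∉ Lo ∧
      2 * a + ((r.A k).filter (fun i => r.v k i = 1 ∧ r.y k m i < c.h ρ)).card
        ≤ ((r.A k).filter (fun i => c.d i = 1 ∧ c.h i < c.h ρ)).card) := by
  have hcA : (r.A k).card = (r.cls 1 k).card + a := by rw [r.card_A k, I.i2]
  have hRL := r.RA_add_LA k
  have ha := F.ha
  have hcls : ∀ σ : ℝ, ((r.A k).filter (fun i => r.v k i = σ)).card = (r.cls σ k).card := by
    intro σ; rw [cls]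
  obtain ⟨lam, hl1, hl2, hl3⟩ := r.y_eq F.near k m hρ
  rw [hy] at hl3
  rcases r.death_case k hρ hdead with ⟨hx, hv⟩ | ⟨hx, hv⟩
  · rcases c.unit ρ with hd | hd
    · -- R returns home
      exfalso
      rw [hd] at hv
      rw [hv] at hl1 hl3
      have hU := (r.count_ineq F.near k hρ 0 (by rw [hx]; simp) m hm).1
      rw [hO, r.card_left F k hd] at hU
      -- split the count
      have hsplit : ((r.A k).filter (fun i => i ≠ ρ ∧ r.y k m i ≤ c.h ρ)).card
          ≤ (a - 1) + ((r.A k).filter (fun i => r.v k i = 1 ∧ r.y k m i ≤ c.h ρ)).card := by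
        have hsub : (r.A k).filter (fun i => i ≠ ρ ∧ r.y k m i ≤ c.h ρ) ⊆
            ((r.cls (-1) k).erase ρ) ∪
              ((r.A k).filter (fun i => r.v k i = 1 ∧ r.y k m i ≤ c.h ρ)) := by
          intro i hi
          rw [Finset.mem_filter] at hi
          rw [Finset.mem_union, Finset.mem_erase, r.mem_cls, Finset.mem_filter]
          rcases r.vel k i hi.1 with h | h
          · right; exact ⟨hi.1, h, hi.2.2⟩
          · left; exact ⟨hi.2.1, hi.1, h⟩
        have := (Finset.card_le_card hsub).trans (Finset.card_union_le _ _)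
        rwa [Finset.card_erase_of_mem (r.mem_cls.2 ⟨hρ, hv⟩), I.i2] at this
      set p := ((r.A k).filter (fun i => r.v k i = 1 ∧ r.y k m i ≤ c.h ρ)).card with hp
      set rr := ((r.A k).filter (fun i => c.d i = 1 ∧ c.h i < c.h ρ)).card with hrr
      have hU' : r.RA k + r.LA k + rr + 1 ≤ 2 * a + p := by
        have e1 : (((r.A k).filter (fun i => i ≠ ρ ∧ r.y k m i ≤ c.h ρ)).card : ℝ)
            ≤ (a:ℝ) - 1 + p := by
          have := hsplit
          have h2 : (((r.A k).filter (fun i => i ≠ ρ ∧ r.y k m i ≤ c.h ρ)).card : ℝ)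
              ≤ (((a - 1) + p : ℕ) : ℝ) := by exact_mod_cast this
          rw [Nat.cast_add, Nat.cast_sub ha] at h2
          simpa using h2
        push_cast at hU
        have : (r.RA k : ℝ) + r.LA k + rr + 1 ≤ 2 * a + p := by linarith
        exact_mod_cast this
      by_cases hLo : ρ ∈ Lo
      · -- low robot
        have hle : (c.dir 1).filter (fun i => c.h i < c.h ρ)
            ⊆ (r.A k).filter (fun i => c.d i = 1 ∧ c.h i < c.h ρ) := by
          intro i hi
          rw [Finset.mem_filter, c.mem_dir] at hi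
          rw [Finset.mem_filter]
          refine ⟨I.i1 i ?_, hi.1, hi.2⟩
          by_contra hne
          have := F.loB ρ hLo i hi.1 hne
          linarith [hi.2]
        have hle' := Finset.card_le_card hle
        set T := (c.dir 1).filter (fun i => c.h i ≤ c.h ρ) with hT
        have hTc : T.card ≤ ((c.dir 1).filter (fun i => c.h i < c.h ρ)).card + 1 := by
          have : T ⊆ insert ρ ((c.dir 1).filter (fun i => c.h i < c.h ρ)) := by
            intro i hi
            rw [hT, Finset.mem_filter] at hi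
            rw [Finset.mem_insert, Finset.mem_filter]
            by_cases hiρ : i = ρ
            · left; exact hiρ
            · right
              refine ⟨hi.1, lt_of_le_of_ne hi.2 ?_⟩
              intro h
              apply c.ne_of_ne hiρ 0
              simpa using h
          exact (Finset.card_le_card this).trans (Finset.card_insert_le _ _)
        have hlab : ∀ i ∈ r.A k, r.v k i = 1 → r.y k m i ≤ c.h ρ → ∀ q, c.d q = 1 →
            r.w k i = c.h q + (round (r.w k i) : ℝ) → q ∈ T := by
          intro i hi hvi hyi q hq hw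
          rw [hT, Finset.mem_filter, c.mem_dir]
          refine ⟨hq, ?_⟩
          by_contra hlt
          push Not at hlt
          have hA := F.condA ρ hLo q lam hq hl1 hlt
          have hyq : r.y k m i = c.h q + (r.t (k+1) - m) := by
            have hmv := r.move k i hi
            rw [y, hmv]
            have : r.x k i = r.w k i + r.v k i * r.t k := by rw [w]; ring
            rw [this, hvi]
            linarith
          rw [hyq] at hyi
          linarith
        by_cases hRA : r.RA k = 2 * a
        · have hp2 : p ≤ (T.erase q0).card := by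
            apply r.card_labels F k
            intro i hi hvi hyi q hq hw
            refine Finset.mem_erase.2 ⟨?_, hlab i hi hvi hyi q hq hw⟩
            rintro rfl
            exact I.i6 hRA ⟨i, hi, hvi, ⟨round (r.w k i), hw⟩⟩
          rw [Finset.card_erase_of_mem (by
            rw [hT, Finset.mem_filter, c.mem_dir]; exact ⟨F.q0R, F.q0m ρ hd⟩)] at hp2
          omega
        · have hp2 : p ≤ T.card := r.card_labels F k _ T hlab
          have := I.i4
          omega
      · have hsub : Lo ⊆ (r.A k).filter (fun i => c.d i = 1 ∧ c.h i < c.h ρ) := by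
          intro i hi
          rw [Finset.mem_filter]
          exact ⟨I.i1 i hi, F.loR i hi, F.loB i hi ρ hd hLo⟩
        have h1 := Finset.card_le_card hsub
        rw [F.loC] at h1
        have h2 : p ≤ (r.cls 1 k).card := by
          rw [← hcls]
          apply Finset.card_le_card
          intro i hi
          rw [Finset.mem_filter] at hi ⊢
          exact ⟨hi.1, hi.2.1⟩
        omega
    · left
      rw [hd] at hv
      exact ⟨hd, by rw [hv]; norm_num, hx⟩
  · rcases c.unit ρ with hd | hd
    · -- R goes around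
      right
      rw [hd] at hv hx
      rw [hv] at hl1 hl3
      have hL := (r.count_ineq F.near k hρ 1 (by rw [hx]; simp) m hm).2
      rw [hO, r.card_left F k hd] at hL
      set rr := ((r.A k).filter (fun i => c.d i = 1 ∧ c.h i < c.h ρ)).card with hrr
      set yy := ((r.A k).filter (fun i => r.y k m i < c.h ρ)).card with hyy
      have hL' : a + yy ≤ rr := by
        have hRL' : (r.RA k : ℝ) + r.LA k = (r.A k).card := by exact_mod_cast hRL
        push_cast at hL
        have : (a:ℝ) + yy ≤ rr := by linarith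
        exact_mod_cast this
      have hLo : ρ ∉ Lo := by
        intro hLo
        have h1 := card_low F hLo
        have h2 : rr ≤ ((c.dir 1).filter (fun i => c.h i < c.h ρ)).card := by
          apply Finset.card_le_card
          intro i hi
          rw [Finset.mem_filter] at hi ⊢
          exact ⟨c.mem_dir.2 hi.2.1, hi.2.2⟩
        omega
      refine ⟨hd, hv, hx, hLo, ?_⟩
      have hB := F.condB ρ hd hLo lam hl1
      have hyy2 : a + ((r.A k).filter (fun i => r.v k i = 1 ∧ r.y k m i < c.h ρ)).card ≤ yy := by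
        rw [← I.i2, ← Finset.card_union_of_disjoint]
        · apply Finset.card_le_card
          intro i hi
          rw [Finset.mem_union, r.mem_cls, Finset.mem_filter] at hi
          rw [Finset.mem_filter]
          rcases hi with ⟨h1, h2⟩ | ⟨h1, _, h3⟩
          · refine ⟨h1, ?_⟩
            obtain ⟨l, hq1, _, hq3⟩ := r.y_eq F.near k m h1
            rw [h2] at hq1 hq3
            have := F.negL l hq1
            rw [hq3]
            linarith
          · exact ⟨h1, h3⟩
        · rw [Finset.disjoint_left]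
          intro i h1 h2
          rw [r.mem_cls] at h1
          rw [Finset.mem_filter] at h2
          have := h1.2
          rw [h2.2.1] at this; norm_num at this
      omega
    · -- L goes around
      exfalso
      rw [hd] at hx
      have hU := (r.count_ineq F.near k hρ (-1) (by rw [hx]; push_cast; ring) m hm).1
      rw [hO] at hU
      have h1 : ((r.A k).filter (fun i => i ≠ ρ ∧ r.y k m i ≤ c.h ρ)).card ≤ (r.A k).card - 1 := by
        rw [← Finset.card_erase_of_mem hρ]
        apply Finset.card_le_card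
        intro i hi
        rw [Finset.mem_filter] at hi
        exact Finset.mem_erase.2 ⟨hi.2.1, hi.1⟩
      have hpos : 1 ≤ (r.A k).card := Finset.card_pos.2 ⟨ρ, hρ⟩
      have h1' : (((r.A k).filter (fun i => i ≠ ρ ∧ r.y k m i ≤ c.h ρ)).card : ℝ)
          ≤ (r.A k).card - 1 := by
        have h2 : (((r.A k).filter (fun i => i ≠ ρ ∧ r.y k m i ≤ c.h ρ)).card : ℝ)
            ≤ (((r.A k).card - 1 : ℕ) : ℝ) := by exact_mod_cast h1
        rw [Nat.cast_sub hpos] at h2
        simpa using h2
      have h3 : (0:ℝ) ≤ ((r.A k).filter (fun i => c.h i < c.h ρ)).card := Nat.cast_nonneg _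
      have h4 : (2 * a : ℝ) ≤ r.RA k := by exact_mod_cast I.i4
      have h5 : (0:ℝ) ≤ a := Nat.cast_nonneg _
      push_cast at hU
      linarith

end Run
end Pool.Agent.X13.Rob
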