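import Pool.Agent.X13.Rob.Low3

namespace Pool.Agent.X13.Rob

open Classical

variable {n : ℕ} {c : Config n} (r : Run c)

namespace Run

/-- a dying robot dies close to an integer time -/
theorem window (hN : Near c) (k : ℕ) {ρ : Fin n} (hρ : ρ ∈ r.A k) (hdead : ρ ∉ r.A (k+1)) :
    ∃ m : ℤ, |r.t (k+1) - m| < 1/4 ∧ r.y k m ρ = c.h ρ := by
  obtain ⟨q, hq1, hq2⟩ := r.label' hN k hρ
  have hS : Same (r.x (k+1) ρ) (c.h ρ) := by
    by_contra h
    exact hdead ((r.death k ρ).2 ⟨hρ, h⟩)
  obtain ⟨z, hz⟩ := hS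
  have hmv := r.move k ρ hρ
  have hx : r.x k ρ = r.w k ρ + r.v k ρ * r.t k := by rw [w]; ring
  have h1 := hN q
  have h2 := hN ρ
  rw [abs_lt] at h1 h2
  rcases r.vel k ρ hρ with hv | hv
  · refine ⟨z - round (r.w k ρ), ?_, ?_⟩
    · rw [hv] at hmv hx
      have e : r.t (k+1) - ((z - round (r.w k ρ) : ℤ) : ℝ) = c.h ρ - c.h q := by
        push_cast; linarith
      rw [e, abs_lt]; constructor <;> linarith [h1.1, h1.2, h2.1, h2.2]
    · rw [y, hv, hz]; push_cast; ring
  · refine ⟨round (r.w k ρ) - z, ?_, ?_⟩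
    · rw [hv] at hmv hx
      have e : r.t (k+1) - ((round (r.w k ρ) - z : ℤ) : ℝ) = c.h q - c.h ρ := by
        push_cast; linarith
      rw [e, abs_lt]; constructor <;> linarith [h1.1, h1.2, h2.1, h2.2]
    · rw [y, hv, hz]; push_cast; ring

/-- up to time 3/2 all deaths happen around time 1 -/
theorem window_one {a e : ℕ} {Lo : Finset (Fin n)} {q0 : Fin n} (F : Fam c a e Lo q0) (k : ℕ)
    (ht : r.t (k+1) ≤ 3/2) {ρ : Fin n} (hρ : ρ ∈ r.A k) (hdead : ρ ∉ r.A (k+1)) :
    |r.t (k+1) - (1:ℤ)| < 1/4 ∧ r.y k 1 ρ = c.h ρ := by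
  obtain ⟨m, hm, hy⟩ := r.window F.near k hρ hdead
  have ht0 : 0 < r.t (k+1) := by
    have := r.t_strictMono (Nat.succ_pos k)
    rw [r.t0] at this; exact this
  have hm' := abs_lt.1 hm
  have m1 : m < 2 := by
    have : (m:ℝ) < 2 := by linarith [hm'.1]
    exact_mod_cast this
  have m0 : -1 < m := by
    have : (-1:ℝ) < m := by linarith [hm'.2]
    exact_mod_cast this
  rcases (by omega : m = 1 ∨ m = 0) with rfl | rfl
  · exact ⟨hm, hy⟩
  · exfalso
    obtain ⟨q, hq1, hq2, hq3⟩ := r.y_eq F.near k 0 hρ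
    rw [hy] at hq3
    have h0 := r.dist_le k ρ hρ
    have hmv := r.move k ρ hρ
    have hlt := r.tlt k
    push_cast at hm' hq3
    have hX : |r.x (k+1) ρ - c.h ρ| ≤ r.t (k+1) := by
      rw [hmv]
      rw [abs_le] at h0 ⊢
      rcases r.vel k ρ hρ with h | h <;> rw [h] <;> constructor <;> linarith [h0.1, h0.2]
    rcases r.death_case k hρ hdead with ⟨hx, hv⟩ | ⟨hx, hv⟩
    · rcases c.unit ρ with hd | hd
      · rw [hd] at hv
        rw [hv] at hq1 hq3
        have := F.negL q hq1
        have := F.posR ρ hd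
        linarith
      · rw [hd] at hv
        rw [hv] at hq1 hq3
        have h5 : c.d q = 1 := by rw [hq1]; norm_num
        have := F.posR q h5
        have := F.negL ρ hd
        linarith
    · rw [hx] at hX
      have e : c.h ρ + c.d ρ - c.h ρ = c.d ρ := by ring
      rw [e] at hX
      rcases c.unit ρ with hd | hd <;> rw [hd] at hX <;> norm_num at hX <;> linarith [hm'.2]

/-- the invariant is preserved up to time 3/2 -/
theorem inv_step {a e : ℕ} {Lo : Finset (Fin n)} {q0 : Fin n} (F : Fam c a e Lo q0) (k : ℕ)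
    (ht : r.t (k+1) ≤ 3/2) (I : r.Inv a Lo q0 k) : r.Inv a Lo q0 (k+1) := by
  have hO : ∑ i ∈ r.A k, ((round (r.w k i) : ℝ) + r.v k i * ((1:ℤ):ℝ)) = r.RA k - a := by
    rw [← I.i3]
    apply Finset.sum_congr rfl
    intro i _; push_cast; ring
  have hD : ∀ ρ ∈ r.A k, ρ ∉ r.A (k+1) → _ := fun ρ h1 h2 =>
    r.death_analysis F k I h1 h2 1 (r.window_one F k ht h1 h2).1 (r.window_one F k ht h1 h2).2 hO
  have hDy : ∀ ρ ∈ r.A k, ρ ∉ r.A (k+1) → r.y k 1 ρ = c.h ρ := fun ρ h1 h2 =>
    (r.window_one F k ht h1 h2).2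
  have hsub : r.A (k+1) ⊆ r.A k := fun i hi => r.mem_of_mem_succ hi
  set D := r.A k \ r.A (k+1) with hDdef
  set DR := D.filter (fun i => c.d i = 1) with hDR
  have hmemD : ∀ ρ, ρ ∈ D ↔ ρ ∈ r.A k ∧ ρ ∉ r.A (k+1) := by
    intro ρ; rw [hDdef, Finset.mem_sdiff]
  have hmemDR : ∀ ρ, ρ ∈ DR ↔ ρ ∈ r.A k ∧ ρ ∉ r.A (k+1) ∧ c.d ρ = 1 := by
    intro ρ; rw [hDR, Finset.mem_filter, hmemD]; tauto
  have hv1 : ∀ ρ ∈ D, r.v k ρ = 1 := by
    intro ρ h
    rcases hD ρ ((hmemD ρ).1 h).1 ((hmemD ρ).1 h).2 with h' | h'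
    · exact h'.2.1
    · exact h'.2.1
  -- counts
  have hRA : r.RA (k+1) + DR.card = r.RA k := by
    rw [RA, RA, ← Finset.card_union_of_disjoint]
    · congr 1
      ext i
      rw [Finset.mem_union, Finset.mem_filter, hmemDR, Finset.mem_filter]
      constructor
      · rintro (⟨h1, h2⟩ | ⟨h1, h2, h3⟩)
        · exact ⟨hsub h1, h2⟩
        · exact ⟨h1, h3⟩
      · rintro ⟨h1, h2⟩
        by_cases h : i ∈ r.A (k+1)
        · left; exact ⟨h, h2⟩
        · right; exact ⟨h1, h, h2⟩
    · rw [Finset.disjoint_left]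
      intro i h1 h2
      rw [Finset.mem_filter] at h1
      exact ((hmemDR i).1 h2).2.1 h1.1
  have hsumD : ∑ i ∈ D, ((round (r.w k i) : ℝ) + r.v k i) = DR.card := by
    have e : ∀ i ∈ D, ((round (r.w k i) : ℝ) + r.v k i) = if c.d i = 1 then (1:ℝ) else 0 := by
      intro i hi
      have hi' := (hmemD i).1 hi
      have hyi := hDy i hi'.1 hi'.2
      rw [y] at hyi
      push_cast at hyi
      rcases hD i hi'.1 hi'.2 with ⟨g1, g2, g3⟩ | ⟨g1, g2, g3, _⟩
      · rw [if_neg (by rw [g1]; norm_num)]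
        rw [g3] at hyi; linarith
      · rw [if_pos g1]
        rw [g3] at hyi; linarith
    rw [Finset.sum_congr rfl e, Finset.sum_boole, hDR]
  have hi3 : ∑ i ∈ r.A (k+1), ((round (r.w (k+1) i) : ℝ) + r.v (k+1) i) = r.RA (k+1) - a := by
    rw [Finset.sum_add_distrib, r.Q_step k, r.V_step (fun x => x) k, ← Finset.sum_add_distrib]
    have h1 := Finset.sum_sdiff (f := fun i => ((round (r.w k i) : ℝ) + r.v k i)) hsub
    rw [← hDdef, hsumD, I.i3] at h1
    have h2 : (r.RA (k+1) : ℝ) + DR.card = r.RA k := by exact_mod_cast hRA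
    linarith
  -- number of particles moving left
  have hi2 : (r.cls (-1) (k+1)).card = a := by
    have h1 := r.V_step (fun x => if x = -1 then (1:ℝ) else 0) k
    simp only [Finset.sum_boole] at h1
    have h2 : ((r.A (k+1)).filter (fun i => r.v k i = -1)) = r.cls (-1) k := by
      ext i
      rw [Finset.mem_filter, r.mem_cls]
      constructor
      · rintro ⟨g1, g2⟩; exact ⟨hsub g1, g2⟩
      · rintro ⟨g1, g2⟩
        refine ⟨?_, g2⟩
        by_contra h
        have := hv1 i ((hmemD i).2 ⟨g1, h⟩)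
        rw [g2] at this; norm_num at this
    rw [h2, I.i2] at h1
    have h3 : (r.cls (-1) (k+1)).card = ((r.A (k+1)).filter (fun i => r.v (k+1) i = -1)).card := by
      rw [cls]
    rw [h3]; exact_mod_cast h1
  have hi1 : ∀ i ∈ Lo, i ∈ r.A (k+1) := by
    intro i hi
    by_contra h
    rcases hD i (I.i1 i hi) h with ⟨g1, _⟩ | ⟨_, _, _, g4, _⟩
    · have := F.loR i hi
      rw [g1] at this; norm_num at this
    · exact g4 hi
  -- the largest dying R robot
  have hbig : DR.Nonempty → ∃ ρ ∈ DR, 2 * a + ((r.A k).filter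
      (fun i => r.v k i = 1 ∧ r.y k 1 i < c.h ρ)).card + 1 ≤ r.RA k ∧
      (DR.erase ρ) ⊆ (r.A k).filter (fun i => r.v k i = 1 ∧ r.y k 1 i < c.h ρ) := by
    intro hne
    obtain ⟨ρ, hρ, hmax⟩ := DR.exists_max_image c.h hne
    refine ⟨ρ, hρ, ?_, ?_⟩
    · have hρ' := (hmemDR ρ).1 hρ
      rcases hD ρ hρ'.1 hρ'.2.1 with ⟨g1, _⟩ | ⟨_, _, _, _, g5⟩
      · rw [hρ'.2.2] at g1; norm_num at g1
      · have : ((r.A k).filter (fun i => c.d i = 1 ∧ c.h i < c.h ρ)).card + 1 ≤ r.RA k := by
          have hs : (r.A k).filter (fun i => c.d i = 1 ∧ c.h i < c.h ρ) ⊆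
              ((r.A k).filter (fun i => c.d i = 1)).erase ρ := by
            intro i hi
            rw [Finset.mem_filter] at hi
            refine Finset.mem_erase.2 ⟨?_, Finset.mem_filter.2 ⟨hi.1, hi.2.1⟩⟩
            rintro rfl; exact lt_irrefl _ hi.2.2
          have h1 := Finset.card_le_card hs
          have hmem : ρ ∈ (r.A k).filter (fun i => c.d i = 1) :=
            Finset.mem_filter.2 ⟨hρ'.1, hρ'.2.2⟩
          rw [Finset.card_erase_of_mem hmem] at h1
          have hpos := Finset.card_pos.2 ⟨ρ, hmem⟩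
          rw [RA]; omega
        omega
    · intro i hi
      rw [Finset.mem_erase] at hi
      have hi' := (hmemDR i).1 hi.2
      rw [Finset.mem_filter]
      refine ⟨hi'.1, hv1 i ((hmemD i).2 ⟨hi'.1, hi'.2.1⟩), ?_⟩
      rw [hDy i hi'.1 hi'.2.1]
      refine lt_of_le_of_ne (hmax i hi.2) ?_
      intro h
      apply c.ne_of_ne hi.1 0
      simpa using h
  have hi4 : 2 * a ≤ r.RA (k+1) := by
    rcases DR.eq_empty_or_nonempty with h | h
    · rw [h, Finset.card_empty] at hRA
      have := I.i4; omega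
    · obtain ⟨ρ, hρ, h1, h2⟩ := hbig h
      have h3 := Finset.card_le_card h2
      rw [Finset.card_erase_of_mem hρ] at h3
      have := Finset.card_pos.2 h
      omega
  refine ⟨hi1, hi2, hi3, hi4, ?_⟩
  intro hRA2 ⟨i, hi, hvi, hS⟩
  obtain ⟨j, hj, hvj, hs⟩ := r.pred k hi
  have hj' := hsub hj
  rw [hvi] at hvj
  have hwj : Same (r.w k j) (c.h q0) := by
    have hm := r.move k j hj'
    obtain ⟨α, hα⟩ := hs
    obtain ⟨β, hβ⟩ := hS
    refine ⟨α + β, ?_⟩
    rw [w] at hβ ⊢
    rw [hvi] at hβ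
    rw [hvj] at hm ⊢
    push_cast; linarith
  rcases DR.eq_empty_or_nonempty with h | h
  · rw [h, Finset.card_empty] at hRA
    exact I.i6 (by omega) ⟨j, hj', hvj, hwj⟩
  · obtain ⟨ρ, hρ, h1, h2⟩ := hbig h
    have h3 := Finset.card_le_card h2
    have h3' := h3
    rw [Finset.card_erase_of_mem hρ] at h3
    have hpos := Finset.card_pos.2 h
    have heq : DR.erase ρ = (r.A k).filter (fun i => r.v k i = 1 ∧ r.y k 1 i < c.h ρ) := by
      apply Finset.eq_of_subset_of_card_le h2
      rw [Finset.card_erase_of_mem hρ]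
      omega
    have hρ' := (hmemDR ρ).1 hρ
    have hvρ := hv1 ρ ((hmemD ρ).2 ⟨hρ'.1, hρ'.2.1⟩)
    obtain ⟨lam, hl1, hl2, hl3⟩ := r.y_eq F.near k 1 hρ'.1
    rw [hDy ρ hρ'.1 hρ'.2.1, hvρ] at hl3
    rw [hvρ] at hl1
    obtain ⟨q, hq1, hq2, hq3⟩ := r.y_eq F.near k 1 hj'
    rw [hvj] at hq1 hq3
    have hq0 : q = q0 := by
      by_contra hne
      obtain ⟨β, hβ⟩ := hwj
      exact c.distinct q q0 hne ⟨β - round (r.w k j), by push_cast; linarith⟩
    subst hq0
    have hle := F.q0m lam hl1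
    rcases hle.lt_or_eq with hlt | heq'
    · have hmem : j ∈ (r.A k).filter (fun i => r.v k i = 1 ∧ r.y k 1 i < c.h ρ) := by
        rw [Finset.mem_filter]
        exact ⟨hj', hvj, by rw [hq3, hl3]; linarith⟩
      rw [← heq, Finset.mem_erase] at hmem
      exact ((hmemDR j).1 hmem.2).2.1 hj
    · have hjρ : j = ρ := by
        apply r.label_inj k hj' hρ'.1 (hvj.trans hvρ.symm)
        refine ⟨round (r.w k j) - round (r.w k ρ), ?_⟩
        push_cast
        linarith
      rw [hjρ] at hj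
      exact hρ'.2.1 hj

theorem inv_zero {a e : ℕ} {Lo : Finset (Fin n)} {q0 : Fin n} (F : Fam c a e Lo q0) :
    r.Inv a Lo q0 0 := by
  have hRA : r.RA 0 = 2 * a + 1 + e := by
    rw [RA, ← F.cR, r.A0]
    rfl
  have hLA : (r.cls (-1) 0).card = a := by rw [r.cls_zero, F.cL]
  refine ⟨fun i _ => by rw [r.A0]; exact Finset.mem_univ _, hLA, ?_, by omega, fun h => by omega⟩
  have h0 : ∀ i ∈ r.A 0, ((round (r.w 0 i) : ℝ) + r.v 0 i) = r.v 0 i := by
    intro i _
    have h1 := F.near i
    rw [abs_lt] at h1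
    have : round (r.w 0 i) = 0 := by
      rw [w, r.x0, r.t0, round_eq_zero_iff]
      constructor <;> linarith [h1.1, h1.2]
    rw [this]; simp
  rw [Finset.sum_congr rfl h0, r.sum_vel, r.cls_zero, r.cls_zero, F.cR, F.cL, hRA]

/-- position at time 3/2 is strictly inside -/
theorem side_mid {k : ℕ} {i : Fin n} (hi : i ∈ r.A k) (h1 : r.t k ≤ 3/2) (h2 : 3/2 < r.t (k+1)) :
    0 < c.d i * (r.x k i + r.v k i * (3/2 - r.t k) - c.h i) ∧
      c.d i * (r.x k i + r.v k i * (3/2 - r.t k) - c.h i) < 1 := by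
  have hk : k ≠ 0 := by
    rintro rfl
    refine r.noHome 0 1 (by rw [r.t0]; norm_num) (by linarith) i hi ?_
    rw [r.x0, r.v0, r.t0]
    rcases c.unit i with h | h
    · exact ⟨1, by rw [h]; push_cast; ring⟩
    · exact ⟨-1, by rw [h]; push_cast; ring⟩
  obtain ⟨l, rfl⟩ : ∃ l, k = l + 1 := ⟨k - 1, by omega⟩
  have h0 := r.side l i hi
  rcases h1.lt_or_eq with hlt | heq
  · have hv := r.vel (l+1) i hi
    have hw : c.d i * r.v (l+1) i = 1 ∨ c.d i * r.v (l+1) i = -1 := by
      rcases c.unit i with h | h <;> rcases hv with h' | h' <;> rw [h, h'] <;> norm_num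
    have := linear_side h0.1 h0.2 hw (Δ := 3/2 - r.t (l+1)) (by linarith) (by
      intro s hs hs' ⟨m, hmm⟩
      apply r.noHome (l+1) (r.t (l+1) + s) (by linarith) (by linarith) i hi
      have hsimp : r.t (l+1) + s - r.t (l+1) = s := by ring
      rw [hsimp]
      rcases c.unit i with h | h
      · exact ⟨m, by rw [h] at hmm; linarith⟩
      · exact ⟨-m, by rw [h] at hmm; push_cast; linarith⟩)
    have e : c.d i * (r.x (l+1) i + r.v (l+1) i * (3/2 - r.t (l+1)) - c.h i)
        = c.d i * (r.x (l+1) i - c.h i) + c.d i * r.v (l+1) i * (3/2 - r.t (l+1)) := by ring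
    rw [e]; exact this
  · rw [heq]
    simpa using h0

/-- At time 3/2 exactly `2a` robots are alive, all of type `R`. -/
theorem mid {a e : ℕ} {Lo : Finset (Fin n)} {q0 : Fin n} (F : Fam c a e Lo q0) {k : ℕ}
    (I : r.Inv a Lo q0 k) (h1 : r.t k ≤ 3/2) (h2 : 3/2 < r.t (k+1)) :
    r.RA k = 2 * a ∧ r.LA k = 0 := by
  have key : ∀ i ∈ r.A k, ((round (r.w k i) : ℝ) + r.v k i)
      = (if r.v k i = -1 then (1:ℝ) else 0) - (if c.d i = -1 then (1:ℝ) else 0) := by
    intro i hi
    have hs := r.side_mid hi h1 h2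
    obtain ⟨q, hq1, hq2⟩ := r.label' F.near k hi
    have a1 := abs_lt.1 (F.near q)
    have a2 := abs_lt.1 (F.near i)
    set R := round (r.w k i) with hR
    have hx : r.x k i = r.w k i + r.v k i * r.t k := by rw [w]; ring
    rw [hx] at hs
    have hs' : 0 < c.d i * (r.w k i + r.v k i * (3/2) - c.h i) ∧
        c.d i * (r.w k i + r.v k i * (3/2) - c.h i) < 1 := by
      constructor
      · have := hs.1; ring_nf at this ⊢; linarith
      · have := hs.2; ring_nf at this ⊢; linarith
    rcases c.unit i with hd | hd <;> rcases r.vel k i hi with hv | hv <;>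
      rw [hd, hv, hq2] at hs' <;> rw [hd, hv]
    · have l1 : (-2:ℝ) < R := by linarith [hs'.1, a1.2, a2.1]
      have l2 : (R:ℝ) < 0 := by linarith [hs'.2, a1.1, a2.2]
      have l1' : -2 < R := by exact_mod_cast l1
      have l2' : R < 0 := by exact_mod_cast l2
      have : R = -1 := by omega
      rw [this]; norm_num
    · have l1 : (1:ℝ) < R := by linarith [hs'.1, a1.2, a2.1]
      have l2 : (R:ℝ) < 3 := by linarith [hs'.2, a1.1, a2.2]
      have l1' : 1 < R := by exact_mod_cast l1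
      have l2' : R < 3 := by exact_mod_cast l2
      have : R = 2 := by omega
      rw [this]; norm_num
    · have l1 : (-3:ℝ) < R := by linarith [hs'.2, a1.2, a2.1]
      have l2 : (R:ℝ) < -1 := by linarith [hs'.1, a1.1, a2.2]
      have l1' : -3 < R := by exact_mod_cast l1
      have l2' : R < -1 := by exact_mod_cast l2
      have : R = -2 := by omega
      rw [this]; norm_num
    · have l1 : (0:ℝ) < R := by linarith [hs'.2, a1.2, a2.1]
      have l2 : (R:ℝ) < 2 := by linarith [hs'.1, a1.1, a2.2]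
      have l1' : 0 < R := by exact_mod_cast l1
      have l2' : R < 2 := by exact_mod_cast l2
      have : R = 1 := by omega
      rw [this]; norm_num
  have h3 := I.i3
  rw [Finset.sum_congr rfl key, Finset.sum_sub_distrib, Finset.sum_boole, Finset.sum_boole] at h3
  have h4 : ((r.A k).filter (fun i => r.v k i = -1)).card = a := by
    have := I.i2; rwa [cls] at this
  have h5 : ((r.A k).filter (fun i => c.d i = -1)).card = r.LA k := by rw [LA]
  rw [h4, h5] at h3
  have h6 : (r.RA k : ℝ) + r.LA k = 2 * a := by linarith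
  have h6' : r.RA k + r.LA k = 2 * a := by exact_mod_cast h6
  have := I.i4
  omega

/-- Every run of a configuration of the family has at least `2a` survivors. -/
theorem fam_survivors {a e : ℕ} {Lo : Finset (Fin n)} {q0 : Fin n} (F : Fam c a e Lo q0) :
    2 * a ≤ r.survivors.card := by
  -- the last event before time 3/2
  have hex : ∃ k, 3/2 < r.t k := r.tunb _
  set k1 := Nat.find hex with hk1
  have hs := Nat.find_spec hex
  rw [← hk1] at hs
  have hk10 : k1 ≠ 0 := by
    intro h; rw [h, r.t0] at hs; norm_num at hs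
  obtain ⟨k0, hk0⟩ : ∃ k0, k1 = k0 + 1 := ⟨k1 - 1, by omega⟩
  rw [hk0] at hs
  have hle : ∀ k ≤ k0, r.t k ≤ 3/2 := by
    intro k hk
    by_contra h
    push Not at h
    exact Nat.find_min hex (m := k) (by omega) h
  have hI : ∀ k ≤ k0, r.Inv a Lo q0 k := by
    intro k
    induction k with
    | zero => intro _; exact r.inv_zero F
    | succ k ih => intro hk; exact r.inv_step F k (hle (k+1) hk) (ih (by omega))
  have hI0 := hI k0 le_rfl
  obtain ⟨hRA, hLA⟩ := r.mid F hI0 (hle k0 le_rfl) hs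
  -- afterwards nothing happens
  have hall : ∀ k, k0 ≤ k → r.A k = r.A k0 ∧ r.Inv a Lo q0 k := by
    intro k hk
    induction k, hk using Nat.le_induction with
    | base => exact ⟨rfl, hI0⟩
    | succ k hk ih =>
      obtain ⟨hA, I⟩ := ih
      have hRAk : r.RA k = 2 * a := by rw [RA, hA]; rw [RA] at hRA; exact hRA
      have hLAk : r.LA k = 0 := by rw [LA, hA]; rw [LA] at hLA; exact hLA
      have hcard := r.card_A k
      have hRL := r.RA_add_LA k
      rw [I.i2] at hcard
      have hV : ∑ i ∈ r.A k, r.v k i = 0 := by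
        rw [r.sum_vel, I.i2]
        have : (r.cls 1 k).card = a := by omega
        rw [this]; ring
      have hnod : ∀ i ∈ r.A k, i ∈ r.A (k+1) := by
        intro ρ hρ
        by_contra hdead
        obtain ⟨m, hm, hy⟩ := r.window F.near k hρ hdead
        have hO : ∑ i ∈ r.A k, ((round (r.w k i) : ℝ) + r.v k i * m) = r.RA k - a := by
          have h3 := I.i3
          rw [Finset.sum_add_distrib, hV] at h3
          rw [Finset.sum_add_distrib, ← Finset.sum_mul, hV]
          linarith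
        rcases r.death_analysis F k I hρ hdead m hm hy hO with ⟨g1, _⟩ | ⟨g1, _, _, _, g5⟩
        · have : 0 < r.LA k := by
            rw [LA]; exact Finset.card_pos.2 ⟨ρ, Finset.mem_filter.2 ⟨hρ, g1⟩⟩
          omega
        · have : ((r.A k).filter (fun i => c.d i = 1 ∧ c.h i < c.h ρ)).card + 1 ≤ r.RA k := by
            have hs : (r.A k).filter (fun i => c.d i = 1 ∧ c.h i < c.h ρ) ⊆
                ((r.A k).filter (fun i => c.d i = 1)).erase ρ := by
              intro i hi
              rw [Finset.mem_filter] at hi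
              refine Finset.mem_erase.2 ⟨?_, Finset.mem_filter.2 ⟨hi.1, hi.2.1⟩⟩
              rintro rfl; exact lt_irrefl _ hi.2.2
            have h1 := Finset.card_le_card hs
            have hmem : ρ ∈ (r.A k).filter (fun i => c.d i = 1) :=
              Finset.mem_filter.2 ⟨hρ, g1⟩
            rw [Finset.card_erase_of_mem hmem] at h1
            have hpos := Finset.card_pos.2 ⟨ρ, hmem⟩
            rw [RA]; omega
          omega
      have hAeq : r.A (k+1) = r.A k :=
        Finset.Subset.antisymm (fun i hi => r.mem_of_mem_succ hi) hnod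
      have hRA' : r.RA (k+1) = r.RA k := by rw [RA, RA, hAeq]
      refine ⟨hAeq.trans hA, ⟨fun i hi => hnod i (I.i1 i hi), ?_, ?_, by rw [hRA']; exact I.i4, ?_⟩⟩
      · have h1 := r.V_step (fun x => if x = -1 then (1:ℝ) else 0) k
        simp only [Finset.sum_boole] at h1
        have h1' : ((r.A (k+1)).filter (fun i => r.v (k+1) i = -1)).card
            = ((r.A (k+1)).filter (fun i => r.v k i = -1)).card := by exact_mod_cast h1
        rw [cls, h1', hAeq]
        have := I.i2; rwa [cls] at this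
      · rw [Finset.sum_add_distrib, r.Q_step k, r.V_step (fun x => x) k, hRA', hAeq,
          ← Finset.sum_add_distrib]
        exact I.i3
      · intro _ ⟨i, hi, hvi, hS⟩
        obtain ⟨j, hj, hvj, hs⟩ := r.pred k hi
        have hj' := r.mem_of_mem_succ hj
        rw [hvi] at hvj
        refine I.i6 hRAk ⟨j, hj', hvj, ?_⟩
        have hm := r.move k j hj'
        obtain ⟨α, hα⟩ := hs
        obtain ⟨β, hβ⟩ := hS
        refine ⟨α + β, ?_⟩
        rw [w] at hβ ⊢
        rw [hvi] at hβ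
        rw [hvj] at hm ⊢
        push_cast; linarith
  have hsub : r.A k0 ⊆ r.survivors := by
    intro i hi
    rw [r.mem_survivors]
    intro k
    rcases le_total k k0 with h | h
    · exact r.mem_of_le h hi
    · rw [(hall k h).1]; exact hi
  have h1 := Finset.card_le_card hsub
  have h2 := r.RA_add_LA k0
  omega

end Run
end Pool.Agent.X13.Rob
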