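import Mathlib

/-!
# Bouncing robots on a circle of circumference 1 (MP_6a9d64_co)

The circle is `ℝ / ℤ`; positions are lifted to `ℝ`.  A `Run h d` is a history of the
bouncing robots with home bases `h i` and initial velocities `d i`, described by the sequence
of its event times.
-/

namespace Pool.Agent.X13.Rob

/-- `x` and `y` are the same point of the circle `ℝ / ℤ`. -/
def Same (x y : ℝ) : Prop := ∃ m : ℤ, x = y + m

/-- A configuration: pairwise distinct home bases on the circle, initial velocities `±1`. -/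
structure Config (n : ℕ) where
  h : Fin n → ℝ
  d : Fin n → ℝ
  distinct : ∀ i j, i ≠ j → ¬ Same (h i) (h j)
  unit : ∀ i, d i = 1 ∨ d i = -1

/-- A history of the configuration `c`.  `t k` are the event times, `A k` the set of robots alive
just after time `t k`, `x k i` the (lifted) position of robot `i` at time `t k`, and `v k i` its
velocity just after time `t k`. Between two event times the robots move with constant velocity,
without meeting each other and without visiting their home bases. At an event time first the robots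
which are at home die, then two remaining robots at the same point exchange their velocities. -/
structure Run {n : ℕ} (c : Config n) where
  t : ℕ → ℝ
  A : ℕ → Finset (Fin n)
  x : ℕ → Fin n → ℝ
  v : ℕ → Fin n → ℝ
  t0 : t 0 = 0
  tlt : ∀ k, t k < t (k + 1)
  tunb : ∀ B : ℝ, ∃ k, B < t k
  A0 : A 0 = Finset.univ
  x0 : ∀ i, x 0 i = c.h i
  v0 : ∀ i, v 0 i = c.d i
  move : ∀ k, ∀ i ∈ A k, x (k + 1) i = x k i + v k i * (t (k + 1) - t k)
  noHome : ∀ k, ∀ s, t k < s → s < t (k + 1) → ∀ i ∈ A k,
    ¬ Same (x k i + v k i * (s - t k)) (c.h i)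
  noMeet : ∀ k, ∀ s, t k < s → s < t (k + 1) → ∀ i ∈ A k, ∀ j ∈ A k, i ≠ j →
    ¬ Same (x k i + v k i * (s - t k)) (x k j + v k j * (s - t k))
  death : ∀ k, ∀ i, i ∈ A (k + 1) ↔ i ∈ A k ∧ ¬ Same (x (k + 1) i) (c.h i)
  coll : ∀ k, ∀ i ∈ A (k + 1), ∀ j ∈ A (k + 1), i ≠ j → Same (x (k + 1) i) (x (k + 1) j) →
    v (k + 1) i = v k j
  free : ∀ k, ∀ i ∈ A (k + 1), (∀ j ∈ A (k + 1), j ≠ i → ¬ Same (x (k + 1) i) (x (k + 1) j)) →
    v (k + 1) i = v k i

/-- The robots that never die. -/
noncomputable def Run.survivors {n : ℕ} {c : Config n} (r : Run c) : Finset (Fin n) :=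
  open Classical in Finset.univ.filter (fun i => ∀ k, i ∈ r.A k)

theorem Run.mem_survivors {n : ℕ} {c : Config n} (r : Run c) (i : Fin n) :
    i ∈ r.survivors ↔ ∀ k, i ∈ r.A k := by
  classical
  simp [Run.survivors]

theorem Same.refl (x : ℝ) : Same x x := ⟨0, by simp⟩
theorem Same.symm {x y : ℝ} (h : Same x y) : Same y x := by
  obtain ⟨m, hm⟩ := h; exact ⟨-m, by push_cast; linarith⟩
theorem Same.trans {x y z : ℝ} (h : Same x y) (h' : Same y z) : Same x z := by
  obtain ⟨m, hm⟩ := h; obtain ⟨m', hm'⟩ := h'; exact ⟨m + m', by push_cast; linarith⟩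

end Pool.Agent.X13.Rob
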