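import Pool.Agent.X13.Rob.Basic

namespace Pool.Agent.X13.Rob

variable {n : ℕ} {c : Config n} (r : Run c)

namespace Run

/-- alive robots with velocity `σ` just after event `k` -/
noncomputable def cls (σ : ℝ) (k : ℕ) : Finset (Fin n) :=
  open Classical in (r.A k).filter (fun i => r.v k i = σ)

theorem mem_cls {σ : ℝ} {k : ℕ} {i : Fin n} : i ∈ r.cls σ k ↔ i ∈ r.A k ∧ r.v k i = σ := by
  classical
  simp [cls]

theorem cls_card_succ (σ : ℝ) (k : ℕ) : (r.cls σ (k+1)).card ≤ (r.cls σ k).card := by
  classical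
  have h : ∀ i : Fin n, ∃ j : Fin n, i ∈ r.cls σ (k+1) →
      (j ∈ r.A (k+1) ∧ r.v k j = σ ∧ Same (r.x (k+1) j) (r.x (k+1) i)) := by
    intro i
    by_cases hi : i ∈ r.cls σ (k+1)
    · obtain ⟨hi1, hi2⟩ := r.mem_cls.1 hi
      obtain ⟨j, hj, hv, hs⟩ := r.pred k hi1
      exact ⟨j, fun _ => ⟨hj, hv.trans hi2, hs⟩⟩
    · exact ⟨i, fun h => absurd h hi⟩
  choose f hf using h
  refine Finset.card_le_card_of_injOn f ?_ ?_
  · intro i hi
    obtain ⟨h1, h2, _⟩ := hf i hi
    exact r.mem_cls.2 ⟨r.mem_of_mem_succ h1, h2⟩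
  · intro i hi j hj hij
    by_contra hne
    obtain ⟨_, _, h3⟩ := hf i hi
    obtain ⟨_, _, h3'⟩ := hf j hj
    rw [hij] at h3
    obtain ⟨hi1, hi2⟩ := r.mem_cls.1 hi
    obtain ⟨hj1, hj2⟩ := r.mem_cls.1 hj
    exact r.opp hi1 hj1 hne (h3.symm.trans h3') (hi2.trans hj2.symm)

theorem cls_card_anti (σ : ℝ) {k l : ℕ} (h : k ≤ l) : (r.cls σ l).card ≤ (r.cls σ k).card := by
  induction l, h using Nat.le_induction with
  | base => exact le_rfl
  | succ l _ ih => exact (r.cls_card_succ σ l).trans ih

theorem card_A (k : ℕ) : (r.A k).card = (r.cls 1 k).card + (r.cls (-1) k).card := by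
  classical
  rw [← Finset.card_union_of_disjoint]
  · congr 1
    ext i
    rw [Finset.mem_union, r.mem_cls, r.mem_cls]
    constructor
    · intro hi
      rcases r.vel k i hi with h | h
      · exact Or.inl ⟨hi, h⟩
      · exact Or.inr ⟨hi, h⟩
    · rintro (h | h) <;> exact h.1
  · rw [Finset.disjoint_left]
    intro i h1 h2
    have a := (r.mem_cls.1 h1).2
    have b := (r.mem_cls.1 h2).2
    rw [a] at b; norm_num at b

theorem sum_vel (k : ℕ) : ∑ i ∈ r.A k, r.v k i = (r.cls 1 k).card - (r.cls (-1) k).card := by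
  classical
  have e : ∑ i ∈ r.A k, r.v k i = ∑ i ∈ r.cls 1 k, r.v k i + ∑ i ∈ r.cls (-1) k, r.v k i := by
    rw [← Finset.sum_union]
    · congr 1
      ext i
      rw [Finset.mem_union, r.mem_cls, r.mem_cls]
      constructor
      · intro hi
        rcases r.vel k i hi with h | h
        · exact Or.inl ⟨hi, h⟩
        · exact Or.inr ⟨hi, h⟩
      · rintro (h | h) <;> exact h.1
    · rw [Finset.disjoint_left]
      intro i h1 h2
      have a := (r.mem_cls.1 h1).2
      have b := (r.mem_cls.1 h2).2
      rw [a] at b; norm_num at b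
  rw [e, Finset.sum_congr rfl (fun i hi => (r.mem_cls.1 hi).2),
    Finset.sum_congr (s₁ := r.cls (-1) k) rfl (fun i hi => (r.mem_cls.1 hi).2)]
  simp
  ring

theorem abs_dist {k : ℕ} {i : Fin n} (hi : i ∈ r.A k) : |r.x k i - c.h i| ≤ 1 := by
  rcases Nat.eq_zero_or_pos k with rfl | hk
  · rw [r.x0]; simp
  · rcases c.unit i with h | h
    · have := r.sideR hk hi h
      rw [abs_le]; constructor <;> linarith
    · have := r.sideL hk hi h
      rw [abs_le]; constructor <;> linarith

/-- finally there are as many robots moving in each of the two directions -/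
theorem balance : ∃ K, (∀ k, K ≤ k → r.A k = r.survivors) ∧
    (∀ k, K ≤ k → (r.cls 1 k).card = (r.cls (-1) k).card) := by
  classical
  obtain ⟨K, hK⟩ := r.exists_final
  refine ⟨K, hK, ?_⟩
  have hc : ∀ k, K ≤ k → (r.cls 1 k).card = (r.cls 1 K).card ∧
      (r.cls (-1) k).card = (r.cls (-1) K).card := by
    intro k hk
    have a := r.cls_card_anti 1 hk
    have b := r.cls_card_anti (-1) hk
    have e1 := r.card_A k
    have e2 := r.card_A K
    rw [hK k hk] at e1
    rw [hK K le_rfl] at e2
    omega
  set δ : ℝ := (r.cls 1 K).card - (r.cls (-1) K).card with hδ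
  have hsum : ∀ k, K ≤ k → ∑ i ∈ r.survivors, r.x k i
      = ∑ i ∈ r.survivors, r.x K i + δ * (r.t k - r.t K) := by
    intro k hk
    induction k, hk using Nat.le_induction with
    | base => ring
    | succ k hk ih =>
      have h1 : ∑ i ∈ r.survivors, r.x (k+1) i
          = ∑ i ∈ r.A k, (r.x k i + r.v k i * (r.t (k+1) - r.t k)) := by
        rw [hK k hk]
        exact Finset.sum_congr rfl (fun i hi => r.move k i ((r.mem_survivors i).1 hi k))
      rw [h1, Finset.sum_add_distrib, ← Finset.sum_mul, r.sum_vel, (hc k hk).1, (hc k hk).2,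
        ← hδ, hK k hk, ih]
      ring
  have hbd : ∀ k, K ≤ k → |δ * (r.t k - r.t K)| ≤ 2 * r.survivors.card := by
    intro k hk
    have h1 := hsum k hk
    have h2 : δ * (r.t k - r.t K)
        = ∑ i ∈ r.survivors, ((r.x k i - c.h i) - (r.x K i - c.h i)) := by
      rw [Finset.sum_sub_distrib, Finset.sum_sub_distrib, Finset.sum_sub_distrib]; linarith
    rw [h2]
    calc _ ≤ ∑ i ∈ r.survivors, |((r.x k i - c.h i) - (r.x K i - c.h i))| :=
          Finset.abs_sum_le_sum_abs _ _
      _ ≤ ∑ i ∈ r.survivors, (2:ℝ) := by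
          apply Finset.sum_le_sum
          intro i hi
          have a := r.abs_dist ((r.mem_survivors i).1 hi k)
          have b := r.abs_dist ((r.mem_survivors i).1 hi K)
          calc _ ≤ |r.x k i - c.h i| + |r.x K i - c.h i| := abs_sub _ _
            _ ≤ 2 := by linarith
      _ = 2 * r.survivors.card := by simp; ring
  have hδ0 : δ = 0 := by
    by_contra hne
    have hpos : 0 < |δ| := abs_pos.2 hne
    obtain ⟨k, hk⟩ := r.tunb (r.t K + (2 * r.survivors.card + 1) / |δ|)
    have hKk : K ≤ k := by
      by_contra hlt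
      push Not at hlt
      have := r.t_strictMono.monotone hlt.le
      have h3 : 0 ≤ (2 * (r.survivors.card : ℝ) + 1) / |δ| := by positivity
      linarith
    have h4 := hbd k hKk
    rw [abs_mul] at h4
    have h5 : (2 * (r.survivors.card : ℝ) + 1) / |δ| < |r.t k - r.t K| :=
      lt_of_lt_of_le (by linarith) (le_abs_self _)
    rw [div_lt_iff₀ hpos] at h5
    nlinarith
  intro k hk
  rw [(hc k hk).1, (hc k hk).2]
  have : ((r.cls 1 K).card : ℝ) = (r.cls (-1) K).card := by linarith
  exact_mod_cast this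

/-- All survivors started in the same direction. -/
theorem same_type {q s : Fin n} (hq : q ∈ r.survivors) (hs : s ∈ r.survivors)
    (hdq : c.d q = -1) : c.d s = -1 := by
  classical
  by_contra hds0
  have hds : c.d s = 1 := (c.unit s).resolve_right hds0
  obtain ⟨K, hK⟩ := r.exists_final
  have aliv : ∀ i ∈ r.survivors, ∀ k, i ∈ r.A k := fun i hi k => (r.mem_survivors i).1 hi k
  -- minimal pair
  set P : Finset (Fin n × Fin n) := (r.survivors ×ˢ r.survivors).filter
    (fun p => c.d p.1 = -1 ∧ c.d p.2 = 1) with hP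
  have hPne : P.Nonempty := ⟨(q, s), by simp [hP, hq, hs, hdq, hds]⟩
  obtain ⟨⟨a, b⟩, hab, hmin⟩ := P.exists_min_image (fun p => Int.fract (c.h p.2 - c.h p.1)) hPne
  simp only [hP, Finset.mem_filter, Finset.mem_product] at hab
  obtain ⟨⟨ha, hb⟩, hda, hdb⟩ := hab
  have hmin' : ∀ a' ∈ r.survivors, c.d a' = -1 →
      Int.fract (c.h b - c.h a) ≤ Int.fract (c.h b - c.h a') := by
    intro a' ha' hda'
    exact hmin (a', b) (by simp [hP, ha', hb, hda', hdb])
  have hne : a ≠ b := by rintro rfl; rw [hda] at hdb; norm_num at hdb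
  set m : ℤ := -⌊c.h b - c.h a⌋ with hm
  have hg : c.h b + m = c.h a + Int.fract (c.h b - c.h a) := by
    rw [Int.fract, hm]; push_cast; ring
  have hg0 : 0 < Int.fract (c.h b - c.h a) := by
    rcases (Int.fract_nonneg (c.h b - c.h a)).lt_or_eq with h | h
    · exact h
    · exfalso; apply c.ne_of_ne (Ne.symm hne) m; rw [hg, ← h]; ring
  have hg1 : Int.fract (c.h b - c.h a) < 1 := Int.fract_lt_one _
  -- once moving right, always moving right
  have step : ∀ k, K ≤ k → r.v k a = 1 → r.v (k+1) a = 1 := by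
    intro k hk hv
    by_contra hv1
    have haA := aliv a ha (k+1)
    have hv2 : r.v (k+1) a = -1 := (r.vel (k+1) a haA).resolve_left hv1
    have hnf : ¬ ∀ j ∈ r.A (k+1), j ≠ a → ¬ Same (r.x (k+1) a) (r.x (k+1) j) := by
      intro hf
      have := r.free k a haA hf
      rw [hv] at this; exact hv1 this
    push Not at hnf
    obtain ⟨j, hj, hja, hS⟩ := hnf
    have hvj : r.v (k+1) j = 1 := by rw [r.coll k j hj a haA hja hS.symm, hv]
    have hjs : j ∈ r.survivors := by rw [← hK (k+1) (by omega)]; exact hj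
    obtain ⟨m', hm'⟩ := hS
    have hbases : c.h a < c.h j + m' := by
      rcases lt_or_gt_of_ne (c.ne_of_ne hja m') with h | h
      · exfalso
        rcases r.ord (k+1) j hj a haA m' h with h' | ⟨_, h', _⟩
        · linarith
        · rw [hvj] at h'; norm_num at h'
      · exact h
    have hxa := (r.sideL (k := k+1) (by omega) haA hda).2
    rcases c.unit j with hdj | hdj
    · have := (r.sideR (k := k+1) (by omega) hj hdj).1
      linarith
    · have hjb : j ≠ b := by rintro rfl; rw [hdj] at hdb; norm_num at hdb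
      have hbA := aliv b hb (k+1)
      have hxb := (r.sideR (k := k+1) (by omega) hbA hdb).1
      rcases lt_or_gt_of_ne (c.ne_of_ne hjb (m' - m)) with h | h
      · -- h j + m' < h b + m : contradiction with minimality
        push_cast at h
        have h1 := hmin' j hjs hdj
        have h2 : Int.fract (c.h b - c.h j) = c.h b + m - (c.h j + m') := by
          rw [Int.fract_eq_iff]
          exact ⟨by linarith, by linarith, ⟨m' - m, by push_cast; ring⟩⟩
        rw [h2] at h1
        linarith
      · push_cast at h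
        have h3 : c.h b + ((m - m' : ℤ) : ℝ) < c.h j := by push_cast; linarith
        rcases r.ord (k+1) b hbA j hj (m - m') h3 with h' | ⟨h', _, _⟩ <;>
          push_cast at h' <;> linarith
  by_cases hex : ∃ k0, K ≤ k0 ∧ 1 ≤ k0 ∧ r.v k0 a = 1
  · obtain ⟨k0, hk0, hk01, hv0⟩ := hex
    have hall : ∀ k, k0 ≤ k → r.v k a = 1 ∧ r.x k a = r.x k0 a + (r.t k - r.t k0) := by
      intro k hk
      induction k, hk using Nat.le_induction with
      | base => exact ⟨hv0, by ring⟩
      | succ k hk ih =>
        refine ⟨step k (by omega) ih.1, ?_⟩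
        rw [r.move k a (aliv a ha k), ih.1, ih.2]; ring
    obtain ⟨k, hk⟩ := r.tunb (r.t k0 + 2)
    have hk0k : k0 ≤ k := by
      by_contra hlt
      push Not at hlt
      have := r.t_strictMono.monotone hlt.le
      linarith
    have h1 := (hall k hk0k).2
    have h2 := (r.sideL (k := k) (by omega) (aliv a ha k) hda).2
    have h3 := (r.sideL hk01 (aliv a ha k0) hda).1
    linarith
  · push Not at hex
    set k0 := max K 1 with hk0
    have hall : ∀ k, k0 ≤ k → r.x k a = r.x k0 a - (r.t k - r.t k0) := by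
      intro k hk
      induction k, hk using Nat.le_induction with
      | base => ring
      | succ k hk ih =>
        have hv : r.v k a = -1 := (r.vel k a (aliv a ha k)).resolve_left
          (hex k (by omega) (by omega))
        rw [r.move k a (aliv a ha k), hv, ih]; ring
    obtain ⟨k, hk⟩ := r.tunb (r.t k0 + 2)
    have hk0k : k0 ≤ k := by
      by_contra hlt
      push Not at hlt
      have := r.t_strictMono.monotone hlt.le
      linarith
    have h1 := hall k hk0k
    have h2 := (r.sideL (k := k) (by omega) (aliv a ha k) hda).1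
    have h3 := (r.sideL (k := k0) (by omega) (aliv a ha k0) hda).2
    linarith

end Run
end Pool.Agent.X13.Rob
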