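import Pool.Agent.X13.Rob.Types

namespace Pool.Agent.X13.Rob

variable {n : ℕ} {c : Config n} (r : Run c)

/-- robots which start in direction `σ` -/
noncomputable def Config.dir {n : ℕ} (c : Config n) (σ : ℝ) : Finset (Fin n) :=
  open Classical in Finset.univ.filter (fun i => c.d i = σ)

theorem Config.mem_dir {n : ℕ} (c : Config n) {σ : ℝ} {i : Fin n} : i ∈ c.dir σ ↔ c.d i = σ := by
  classical
  simp [Config.dir]

theorem Config.card_dir {n : ℕ} (c : Config n) : (c.dir 1).card + (c.dir (-1)).card = n := by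
  classical
  rw [← Finset.card_union_of_disjoint]
  · have : c.dir 1 ∪ c.dir (-1) = Finset.univ := by
      ext i
      rw [Finset.mem_union, c.mem_dir, c.mem_dir]
      simp [c.unit i]
    rw [this]; simp
  · rw [Finset.disjoint_left]
    intro i h1 h2
    have a := c.mem_dir.1 h1
    have b := c.mem_dir.1 h2
    rw [a] at b; norm_num at b

namespace Run

theorem cls_zero (σ : ℝ) : r.cls σ 0 = c.dir σ := by
  ext i
  rw [r.mem_cls, c.mem_dir, r.A0, r.v0]
  simp

/-- labels: every robot moving with velocity `-1` sits on a particle that started from the home of a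
robot with initial velocity `-1`. -/
theorem label_neg (k : ℕ) : ∀ i ∈ r.A k, r.v k i = -1 →
    ∃ q, c.d q = -1 ∧ Same (r.x k i + r.t k) (c.h q) := by
  induction k with
  | zero =>
    intro i _ hv
    rw [r.v0] at hv
    refine ⟨i, hv, ?_⟩
    rw [r.x0, r.t0]; simpa using Same.refl _
  | succ k ih =>
    intro i hi hv
    obtain ⟨j, hj, hvj, hs⟩ := r.pred k hi
    have hj' := r.mem_of_mem_succ hj
    obtain ⟨q, hq, hS⟩ := ih j hj' (hvj.trans hv)
    refine ⟨q, hq, ?_⟩
    have hm := r.move k j hj'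
    rw [hvj.trans hv] at hm
    obtain ⟨a, ha⟩ := hs
    obtain ⟨b, hb⟩ := hS
    exact ⟨b - a, by push_cast; linarith⟩

/-- if no velocity `-1` is lost then every label is present -/
theorem label_surj {k : ℕ} (hcard : (r.cls (-1) k).card = (c.dir (-1)).card) {q : Fin n}
    (hq : c.d q = -1) : ∃ i ∈ r.A k, r.v k i = -1 ∧ Same (r.x k i + r.t k) (c.h q) := by
  classical
  have h : ∀ i : Fin n, ∃ q : Fin n, i ∈ r.cls (-1) k →
      (c.d q = -1 ∧ Same (r.x k i + r.t k) (c.h q)) := by
    intro i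
    by_cases hi : i ∈ r.cls (-1) k
    · obtain ⟨h1, h2⟩ := r.mem_cls.1 hi
      obtain ⟨q, hq⟩ := r.label_neg k i h1 h2
      exact ⟨q, fun _ => hq⟩
    · exact ⟨i, fun h => absurd h hi⟩
  choose f hf using h
  have hmaps : Set.MapsTo f (r.cls (-1) k : Set (Fin n)) (c.dir (-1) : Set (Fin n)) := by
    intro i hi
    exact c.mem_dir.2 (hf i hi).1
  have hinj : Set.InjOn f (r.cls (-1) k : Set (Fin n)) := by
    intro i hi j hj hij
    by_contra hne
    obtain ⟨_, h3⟩ := hf i hi
    obtain ⟨_, h3'⟩ := hf j hj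
    rw [hij] at h3
    obtain ⟨hi1, hi2⟩ := r.mem_cls.1 hi
    obtain ⟨hj1, hj2⟩ := r.mem_cls.1 hj
    refine r.opp hi1 hj1 hne ?_ (hi2.trans hj2.symm)
    obtain ⟨a, ha⟩ := h3
    obtain ⟨b, hb⟩ := h3'
    exact ⟨a - b, by push_cast; linarith⟩
  have hsurj := Finset.surjOn_of_injOn_of_card_le f hmaps hinj hcard.ge
  obtain ⟨i, hi, rfl⟩ := hsurj (c.mem_dir.2 hq)
  obtain ⟨h1, h2⟩ := r.mem_cls.1 hi
  exact ⟨i, h1, h2, (hf i hi).2⟩

/-- one backward step for a right moving particle at lifted position `y + t` -/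
theorem back_step {k : ℕ} {y : ℝ} {j : Fin n} {m : ℤ} (hj : j ∈ r.A (k+1))
    (hv : r.v (k+1) j = 1) (hx : r.x (k+1) j + m = y + r.t (k+1)) :
    ∃ j' ∈ r.A (k+1), ∃ m' : ℤ, r.v k j' = 1 ∧ r.x (k+1) j' + m' = y + r.t (k+1) ∧
      r.x k j' + m' = y + r.t k ∧ c.h j' + m' ≤ c.h j + m ∧ (j' ≠ j → c.h j' + m' < c.h j + m) ∧
      (j' = j → m' = m) := by
  obtain ⟨j', hj', hvj, hs⟩ := r.pred k hj
  have hj'' := r.mem_of_mem_succ hj'
  have hm := r.move k j' hj''
  rw [hvj, hv] at hm
  by_cases hjj : j' = j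
  · subst hjj
    exact ⟨j', hj', m, hvj.trans hv, hx, by linarith, le_rfl, fun h => absurd rfl h, fun _ => rfl⟩
  · obtain ⟨a, ha⟩ := hs
    have hx' : r.x (k+1) j' + ((m - a : ℤ) : ℝ) = y + r.t (k+1) := by push_cast; linarith
    have hlt : c.h j' + ((m - a : ℤ) : ℝ) < c.h j + m := by
      rcases lt_or_gt_of_ne (c.ne_of_ne hjj (-a)) with h | h
      · push_cast at h ⊢; linarith
      · exfalso
        have h2 : c.h j + a < c.h j' := by push_cast at h; linarith
        rcases r.ord (k+1) j hj j' hj' a h2 with h' | ⟨_, h', _⟩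
        · linarith
        · rw [hv] at h'; norm_num at h'
    exact ⟨j', hj', m - a, hvj.trans hv, hx', by push_cast at hx' ⊢; linarith, hlt.le,
      fun _ => hlt, fun h => absurd h hjj⟩

/-- A right moving robot with initial direction right is the end of a chain of such robots. -/
theorem chain {K : ℕ} (hK : 1 ≤ K) {j : Fin n} (hj : j ∈ r.A K) (hv : r.v K j = 1)
    (hd : c.d j = 1) : ∃ (J : ℕ → Fin n) (m : ℕ → ℤ) (y : ℝ), y = c.h (J 0) ∧ m 0 = 0 ∧
      (∀ k ≤ K, J k ∈ r.A k ∧ r.v k (J k) = 1 ∧ c.d (J k) = 1 ∧ r.x k (J k) + m k = y + r.t k) ∧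
      (∀ k < K, J k ∈ r.A (k+1) ∧ r.x (k+1) (J k) + m k = y + r.t (k+1) ∧
        c.h (J k) + m k ≤ c.h (J (k+1)) + m (k+1) ∧
        (J k ≠ J (k+1) → c.h (J k) + m k < c.h (J (k+1)) + m (k+1))) := by
  -- first with arbitrary y
  have main : ∀ K : ℕ, ∀ (y : ℝ) (j : Fin n) (a : ℤ), j ∈ r.A K → r.v K j = 1 → c.d j = 1 →
      r.x K j + a = y + r.t K →
      ∃ (J : ℕ → Fin n) (m : ℕ → ℤ), J K = j ∧ m K = a ∧
      (∀ k ≤ K, J k ∈ r.A k ∧ r.v k (J k) = 1 ∧ c.d (J k) = 1 ∧ r.x k (J k) + m k = y + r.t k) ∧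
      (∀ k < K, J k ∈ r.A (k+1) ∧ r.x (k+1) (J k) + m k = y + r.t (k+1) ∧
        c.h (J k) + m k ≤ c.h (J (k+1)) + m (k+1) ∧
        (J k ≠ J (k+1) → c.h (J k) + m k < c.h (J (k+1)) + m (k+1))) := by
    intro K
    induction K with
    | zero =>
      intro y j a hj hv hd hx
      refine ⟨fun _ => j, fun _ => a, rfl, rfl, ?_, ?_⟩
      · intro k hk
        obtain rfl : k = 0 := by omega
        exact ⟨hj, hv, hd, hx⟩
      · intro k hk; omega
    | succ K ih =>
      intro y j a hj hv hd hx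
      obtain ⟨j', hj', m', hvj, hx1, hx0, hle, hlt, heq⟩ := r.back_step hj hv hx
      have hj'' := r.mem_of_mem_succ hj'
      have hd' : c.d j' = 1 := by
        by_contra hd0
        have hdL : c.d j' = -1 := (c.unit j').resolve_left hd0
        have h1 := (r.sideL (k := K+1) (by omega) hj' hdL).2
        have h2 := (r.sideR (k := K+1) (by omega) hj hd).1
        linarith
      obtain ⟨J, m, hJ, hm, h1, h2⟩ := ih y j' m' hj'' hvj hd' hx0
      refine ⟨Function.update J (K+1) j, Function.update m (K+1) a, by simp, by simp, ?_, ?_⟩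
      · intro k hk
        rcases Nat.lt_or_ge k (K+1) with hk' | hk'
        · rw [Function.update_of_ne (by omega), Function.update_of_ne (by omega)]
          exact h1 k (by omega)
        · obtain rfl : k = K+1 := by omega
          rw [Function.update_self, Function.update_self]
          exact ⟨hj, hv, hd, hx⟩
      · intro k hk
        rw [Function.update_of_ne (by omega : k ≠ K+1), Function.update_of_ne (by omega : k ≠ K+1)]
        rcases Nat.lt_or_ge k K with hk' | hk'
        · rw [Function.update_of_ne (by omega : k+1 ≠ K+1),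
            Function.update_of_ne (by omega : k+1 ≠ K+1)]
          exact h2 k hk'
        · obtain rfl : k = K := by omega
          rw [Function.update_self, Function.update_self, hJ, hm]
          exact ⟨hj', hx1, hle, hlt⟩
  obtain ⟨J, m, -, -, h1, h2⟩ := main K (r.x K j - r.t K) j 0 hj hv hd (by push_cast; ring)
  -- normalise
  refine ⟨J, fun k => m k - m 0, c.h (J 0), rfl, by simp, ?_, ?_⟩
  · intro k hk
    obtain ⟨a1, a2, a3, a4⟩ := h1 k hk
    have b := (h1 0 (by omega)).2.2.2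
    rw [r.x0, r.t0] at b
    refine ⟨a1, a2, a3, ?_⟩
    push_cast; linarith
  · intro k hk
    obtain ⟨a1, a2, a3, a4⟩ := h2 k hk
    have b := (h1 0 (by omega)).2.2.2
    rw [r.x0, r.t0] at b
    refine ⟨a1, ?_, ?_, ?_⟩
    · push_cast; linarith
    · push_cast; linarith
    · intro h; push_cast; linarith [a4 h]

end Run
end Pool.Agent.X13.Rob
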